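import Pool.Agent.H334R5.Ct.Mach

/-!
# The search machine for counting: assembly
-/

set_option autoImplicit false

namespace Pool.Agent.H334R5.Ct

open Pool.Agent.NPC
open Pool.Agent.NPC.Cnt (SharpP FP)
open Pool.Agent.NPC.Med (InPPc)
open Pool.Agent.H334R5.Clo (num ext)
open Pool.Agent.H334R5.Nd (Pattern DetExcluder remove_sublist length_remove)
open Pool.Agent.H334R5.Ps (upd extr pickz fix decv lc Mach upd_length mem_upd pickz_le extr_lt
  sz_nat_lt sz_nat_self sz_units lc_le_sz poly_lc TaskExp)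
open Pool.Agent.H334R5.Cnt (usz bits_poly fpoly_of_poly)

theorem sz_le_pow {a : List ℕ} {t B : ℕ} (h : ∀ y ∈ a, y < 2 ^ t) (hB : a.length ≤ B) :
    sz a ≤ B * (4 * t + 2) + 1 := by
  have h1 := sz_le_length_mul a (4 * t + 1) (fun y hy => sz_nat_lt (h y hy))
  have h2 : a.length * (4 * t + 1 + 1) ≤ B * (4 * t + 2) := Nat.mul_le_mul_right _ hB
  omega

theorem sz_range {n t : ℕ} (h : n ≤ t) : sz (List.range n) ≤ t * (4 * t + 2) + 1 := by
  have h1 := sz_le_length_mul (List.range n) (4 * t + 1) (fun y hy => by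
    have e1 := sz_nat_self y
    have e2 := List.mem_range.1 hy
    omega)
  rw [List.length_range] at h1
  have h2 : n * (4 * t + 1 + 1) ≤ t * (4 * t + 2) := Nat.mul_le_mul_right _ h
  omega

/-- The size of contexts. -/
theorem sz_ctx {Q M N w n t NN ww : ℕ} {C : List (List (Bool × ℕ))} {s : CSt}
    (hs : ShC Q M N w n n s) (hA : M * M * N < 2 ^ t) (hC : sz C ≤ t) (hn : n ≤ t)
    (hN : N ≤ NN) (hw : w ≤ ww) {u : List Bool} (hu : u.length ≤ N * w) :
    sz ((ctxOf N w C (List.range n) s, u) : Ctx × List Bool) ≤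
      t + (t * (4 * t + 2) + 1) + (t * (4 * t + 2) + 1) + (4 * t + 1) + (2 * NN + 1) +
        (2 * ww + 1) + (4 * (NN * ww) + 1) + 6 := by
  unfold ctxOf
  rw [sz_pair, sz_pair, sz_pair, sz_pair, sz_pair, sz_pair]
  have h2 := Poly.sz_drop_le (List.range n) (s.1 + 1)
  have h2' := sz_range hn
  have h3 := sz_le_pow (a := s.2.1) (t := t) (B := t)
    (fun y hy => lt_of_le_of_lt (hs.a_le y hy) hA) (by rw [hs.a_len]; exact hn)
  have h4 : sz ((List.range n).getD s.1 0) ≤ 4 * t + 1 := by
    have e1 := sz_nat_self ((List.range n).getD s.1 0)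
    have e2 : (List.range n).getD s.1 0 ≤ t := by
      rcases Nat.lt_or_ge s.1 n with h | h
      · rw [List.getD_eq_getElem?_getD, List.getElem?_eq_getElem (by simpa using h),
          Option.getD_some, List.getElem_range]
        omega
      · rw [List.getD_eq_getElem?_getD, List.getElem?_eq_none (by simpa using h),
          Option.getD_none]
        omega
    omega
  have h5 := sz_units N
  have h6 := sz_units w
  have h7 := sz_listBool_le u
  have h9 : N * w ≤ NN * ww := Nat.mul_le_mul hN hw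
  omega

/-- The size of states. -/
theorem sz_state {Q M N w n t NN ww K : ℕ} {s : CSt}
    (hs : ShC Q M N w n n s) (hA : M * M * N < 2 ^ t) (hn : n ≤ t) (hQ : Q ≤ 2 ^ K)
    (hN : N ≤ NN) (hw : w ≤ ww) :
    sz s ≤ (4 * t + 1) + (t * (4 * t + 2) + 1) + (M * (M + 1) * (8 * K + 8) + 1) +
      (M * (4 * K + 6) + 1) + (4 * (NN * ww) + 1) + (2 * M * (4 * (NN * ww) + 2) + 1) + 5 := by
  obtain ⟨i, a, Ws, ms, r, Cs⟩ := s
  simp only [sz_pair]
  have h1 : sz i ≤ 4 * t + 1 := by
    have e1 := sz_nat_self i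
    have e2 : i ≤ n := hs.t_le
    omega
  have h3 := sz_le_pow (a := a) (t := t) (B := t)
    (fun y hy => lt_of_le_of_lt (hs.a_le y hy) hA) (by
      have := hs.a_len
      simp only at this
      rw [this]; exact hn)
  have h9 : N * w ≤ NN * ww := Nat.mul_le_mul hN hw
  have hK2 : 2 * Q ≤ 2 ^ (K + 1) := by rw [pow_succ]; omega
  have h4 := sz_le_length_mul Ws (8 * K + 7) (by
    rintro ⟨y, m⟩ hb
    rw [sz_pair]
    obtain ⟨b1, b2⟩ := hs.b_lt _ hb
    simp only at b1 b2
    have e1 := sz_nat_lt (lt_of_lt_of_le b1 hQ)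
    have e2 := sz_nat_lt (lt_of_lt_of_le b2 hK2)
    omega)
  have h5 : Ws.length * (8 * K + 7 + 1) ≤ M * (M + 1) * (8 * K + 8) :=
    Nat.mul_le_mul_right _ hs.b_len
  have h4' := sz_le_length_mul ms (4 * (K + 1) + 1) (by
    intro m hm
    exact sz_nat_lt (lt_of_lt_of_le (hs.m_lt _ hm) hK2))
  have h5' : ms.length * (4 * (K + 1) + 1 + 1) ≤ M * (4 * K + 6) :=
    Nat.mul_le_mul hs.m_len (by omega)
  have h6 : sz r ≤ 4 * (NN * ww) + 1 := by
    have e1 := sz_nat_self r
    have e2 : r ≤ N * w := hs.rem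
    omega
  have h7 := sz_le_length_mul Cs (4 * (NN * ww) + 1) (by
    intro u hu
    have e1 := hs.c_len u hu
    have e2 := sz_listBool_le u
    simp only at e1
    omega)
  have h10 : Cs.length * (4 * (NN * ww) + 1 + 1) ≤ 2 * M * (4 * (NN * ww) + 2) :=
    Nat.mul_le_mul_right _ hs.short
  omega

theorem machC_core (hDeg : TaskDegree) (hE1 : TaskExtr1) (hE2 : TaskExtr2)
    (hB : TaskBound) (hLB : TaskLBval) (hSh : TaskSharp) (hExp : TaskExp) (hPV : TaskPolyVal)
    (hPS : TaskPolyStep) (hTr : TaskTrans) {A L : Set (List Bool)} (q : Polynomial ℕ)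
    {g : List Bool → List (List (Bool × ℕ)) × List Unit} {fc : List Bool → ℕ}
    {dec : List Bool → ℕ → Bool} (hA : PPHard A) (pg : Poly g)
    (hg : ∀ x, fc x = val (g x).1 (List.range (g x).2.length) (List.replicate (g x).2.length 0))
    (pdec : Poly (fun p : List Bool × ℕ => dec p.1 p.2))
    (hL : ∀ x, x ∈ L ↔ dec x (fc x) = true) : Nonempty (Mach A L q) := by
  obtain ⟨F, hF, hFred⟩ := hSh
  obtain ⟨f, hf0, hfA⟩ := hFred.trans (hA _ (Med.gt_inPP hF))
  have pf : Poly (fun z : Ctx × List Bool => f (bits z)) := (PIso.poly_iff.2 hf0).comp bits_poly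
  have hf : ∀ (c : Ctx) (u : List Bool), (∀ y ∈ vec c, y < 2 ^ c.2.2.2.2.2.length) →
      u.length ≤ c.2.2.2.2.1.length * c.2.2.2.2.2.length →
      (f (bits ((c, u) : Ctx × List Bool)) ∈ A ↔ num u ≤ num ((W c).take u.length)) := by
    intro c u h1 h2
    rw [← hfA, bits_mem_lang]
    exact hLB c u h1 h2
  obtain ⟨rg, hrg⟩ := pg.sz_le
  obtain ⟨qf, hqf⟩ := pf.sz_le
  set G : Polynomial ℕ := rg.comp (Polynomial.C 4 * Polynomial.X + Polynomial.C 1) with hG
  have hGx : ∀ x : List Bool, sz (g x) ≤ G.eval x.length := by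
    intro x
    have h1 := eval_mono rg (sz_listBool_le x)
    have h2 := hrg x
    rw [hG, Polynomial.eval_comp]
    simp only [Polynomial.eval_add, Polynomial.eval_mul, Polynomial.eval_C, Polynomial.eval_X]
    omega
  -- polynomials in t
  set NP : Polynomial ℕ := Polynomial.C 2 * Polynomial.X + Polynomial.C 2 with hNP
  set WP : Polynomial ℕ := (Polynomial.C 2 * Polynomial.X + Polynomial.C 4) *
    (Polynomial.C 2 * Polynomial.X + Polynomial.C 4) with hWP
  set KP : Polynomial ℕ := Polynomial.C 1 + Polynomial.C 2 * NP + WP + Polynomial.X * NP with hKP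
  have eNP : ∀ t, NP.eval t = 2 * t + 2 := fun t => by
    rw [hNP]
    simp only [Polynomial.eval_add, Polynomial.eval_mul, Polynomial.eval_C, Polynomial.eval_X]
  have eWP : ∀ t, WP.eval t = (2 * t + 4) * (2 * t + 4) := fun t => by
    rw [hWP]
    simp only [Polynomial.eval_add, Polynomial.eval_mul, Polynomial.eval_C, Polynomial.eval_X]
  have eKP : ∀ t, KP.eval t = 1 + 2 * NP.eval t + WP.eval t + t * NP.eval t := fun t => by
    rw [hKP]
    simp only [Polynomial.eval_add, Polynomial.eval_mul, Polynomial.eval_C, Polynomial.eval_X]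
  set Z : Polynomial ℕ := Polynomial.X +
    (Polynomial.X * (Polynomial.C 4 * Polynomial.X + Polynomial.C 2) + Polynomial.C 1) +
    (Polynomial.X * (Polynomial.C 4 * Polynomial.X + Polynomial.C 2) + Polynomial.C 1) +
    (Polynomial.C 4 * Polynomial.X + Polynomial.C 1) + (Polynomial.C 2 * NP + Polynomial.C 1) +
    (Polynomial.C 2 * WP + Polynomial.C 1) + (Polynomial.C 4 * (NP * WP) + Polynomial.C 1) +
    Polynomial.C 6 with hZ
  have eZ : ∀ t, Z.eval t = t + (t * (4 * t + 2) + 1) + (t * (4 * t + 2) + 1) + (4 * t + 1) +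
      (2 * NP.eval t + 1) + (2 * WP.eval t + 1) + (4 * (NP.eval t * WP.eval t) + 1) + 6 :=
    fun t => by
      rw [hZ]
      simp only [Polynomial.eval_add, Polynomial.eval_mul, Polynomial.eval_C, Polynomial.eval_X]
  set nf : Polynomial ℕ := qf.comp Z with hnf
  set MM : Polynomial ℕ := q.comp nf + Polynomial.C 1 with hMM
  have eMM : ∀ ω, MM.eval ω = q.eval (nf.eval ω) + 1 := fun ω => by
    rw [hMM]; simp only [Polynomial.eval_add, Polynomial.eval_comp, Polynomial.eval_C]
  set R : Polynomial ℕ := MM * MM * NP with hR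
  have eR : ∀ ω, R.eval ω = MM.eval ω * MM.eval ω * NP.eval ω := fun ω => by
    rw [hR]
    simp only [Polynomial.eval_mul]
  obtain ⟨c0, hc0⟩ := hExp R
  -- the parameters
  set tf : List Bool → ℕ := fun x => G.eval x.length + c0 with htf
  set wf : List Bool → ℕ := fun x => WP.eval (tf x) with hwf
  set Mf : List Bool → ℕ := fun x => MM.eval (tf x) with hMf
  set Nf : List Bool → ℕ := fun x => 2 * lc (g x).1 + 2 with hNf
  set nx : List Bool → ℕ := fun x => (g x).2.length with hnx
  set Kf : List Bool → ℕ := fun x => 1 + 2 * Nf x + wf x + tf x * Nf x with hKf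
  set Qf : List Bool → ℕ := fun x => 2 ^ Kf x with hQf
  have hszg : ∀ x, sz (g x) ≤ tf x := fun x => (hGx x).trans (Nat.le_add_right _ _)
  have hC : ∀ x, sz (g x).1 ≤ tf x := by
    intro x
    have h2 : sz (g x) = sz (g x).1 + sz (g x).2 + 1 := sz_pair _ _
    have h3 := hszg x
    omega
  have hn : ∀ x, nx x ≤ tf x := by
    intro x
    have h2 : sz (g x) = sz (g x).1 + sz (g x).2 + 1 := sz_pair _ _
    have h3 := hszg x
    have h4 := length_lt_sz (g x).2
    simp only [hnx]
    omega
  have hlc : ∀ x, lc (g x).1 ≤ tf x := fun x => (lc_le_sz _).trans (hC x)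
  have hNN : ∀ x, Nf x ≤ NP.eval (tf x) := by
    intro x
    have := hlc x
    rw [eNP]
    simp only [hNf]
    omega
  have hM1 : ∀ x, 1 ≤ Mf x := fun x => by simp only [hMf]; rw [eMM]; omega
  have hA2 : ∀ x, Mf x * Mf x * Nf x < 2 ^ tf x := by
    intro x
    have h1 := hc0 (tf x) (by simp only [htf]; omega)
    rw [eR] at h1
    exact lt_of_le_of_lt (Nat.mul_le_mul_left _ (hNN x)) h1
  have hKK : ∀ x, Kf x ≤ KP.eval (tf x) := by
    intro x
    rw [eKP]
    have h1 := hNN x
    have h2 := Nat.mul_le_mul_left (tf x) h1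
    simp only [hKf, hwf]
    omega
  have hw : ∀ x, 2 ^ (List.range (nx x)).length *
      (2 * (Mf x * Mf x * Nf x) * (Mf x * Mf x * Nf x)) ^ lc (g x).1 < 2 ^ wf x := by
    intro x
    have h1 := hA2 x
    have h2 : 2 * (Mf x * Mf x * Nf x) * (Mf x * Mf x * Nf x) ≤ 2 ^ (1 + 2 * tf x) := by
      have e1 : 2 ^ (1 + 2 * tf x) = 2 * 2 ^ tf x * 2 ^ tf x := by
        rw [pow_add, pow_one, two_mul, pow_add]; ring
      rw [e1]
      exact Nat.mul_le_mul (Nat.mul_le_mul_left 2 h1.le) h1.le
    have h3 := Nat.pow_le_pow_left h2 (lc (g x).1)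
    rw [← pow_mul] at h3
    rw [List.length_range]
    refine lt_of_le_of_lt (Nat.mul_le_mul_left _ h3) ?_
    rw [← pow_add]
    refine Nat.pow_lt_pow_right (by norm_num) ?_
    have h4 := hn x
    have h5 := Nat.mul_le_mul_left (1 + 2 * tf x) (hlc x)
    simp only [hwf]
    rw [eWP]
    nlinarith
  have hQQ : ∀ x, 2 * (Nf x * (2 ^ Nf x * 2 ^ wf x * (Mf x * Mf x * Nf x + 1) ^ Nf x)) < Qf x := by
    intro x
    have h1 := hA2 x
    have h2 : (Mf x * Mf x * Nf x + 1) ^ Nf x ≤ 2 ^ (tf x * Nf x) := by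
      rw [pow_mul]
      exact Nat.pow_le_pow_left (by omega) _
    have h3 : Nf x < 2 ^ Nf x := Nat.lt_two_pow_self
    have h4 : 2 ^ Nf x * 2 ^ wf x * (Mf x * Mf x * Nf x + 1) ^ Nf x ≤
        2 ^ Nf x * 2 ^ wf x * 2 ^ (tf x * Nf x) := Nat.mul_le_mul_left _ h2
    have h5 : Nf x * (2 ^ Nf x * 2 ^ wf x * (Mf x * Mf x * Nf x + 1) ^ Nf x) <
        2 ^ Nf x * (2 ^ Nf x * 2 ^ wf x * 2 ^ (tf x * Nf x)) :=
      lt_of_le_of_lt (Nat.mul_le_mul_left _ h4) (Nat.mul_lt_mul_of_pos_right h3 (by positivity))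
    have h6 : Qf x = 2 * (2 ^ Nf x * (2 ^ Nf x * 2 ^ wf x * 2 ^ (tf x * Nf x))) := by
      simp only [hQf, hKf]
      rw [pow_add, pow_add, pow_add, pow_one, two_mul, pow_add]
      ring
    rw [h6]
    omega
  have hQ0 : ∀ x, 0 < Qf x := fun x => by simp only [hQf]; positivity
  -- polynomial time
  have ut : UPoly tf := ((UPoly.length Poly.id).eval G).add (UPoly.const c0)
  have uw : UPoly wf := ut.eval WP
  have uM : UPoly Mf := ut.eval MM
  have uN : UPoly Nf := ((UPoly.const 2).mul (poly_lc (Poly.fst pg))).add (UPoly.const 2)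
  have un : UPoly nx := UPoly.length (Poly.snd pg)
  have uK : UPoly Kf :=
    (((UPoly.const 1).add ((UPoly.const 2).mul uN)).add uw).add (ut.mul uN)
  have pQ0 : Poly Qf := Med.poly_two_pow uK
  have pC : Poly (fun x => (g x).1) := Poly.fst pg
  have pjs : Poly (fun x => List.range (nx x)) := un.range
  have prep : ∀ {α : Type} [TEnc α] {n : α → ℕ} (_ : UPoly n) {β : Type} [TEnc β] (b : β),
      Poly (fun x => List.replicate (n x) b) := by
    intro α _ n hn β _ b
    have h1 : Poly (fun x => (List.range (n x)).map fun _ => b) :=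
      NPC.Poly.map (l := fun x => List.range (n x)) (F := fun _ _ => b) hn.range
        (NPC.Poly.const b)
    exact h1.congr fun x => by rw [List.map_const', List.length_range]
  have pinit : Poly (fun x => initC (nx x) (Nf x) (wf x)) :=
    Poly.pair (NPC.Poly.const 0) (Poly.pair (prep un 0)
      (Poly.pair (NPC.Poly.const _) (Poly.pair (NPC.Poly.const _)
        (Poly.pair (uN.mul uw).toPoly (NPC.Poly.const _)))))
  have pctx : Poly (fun p : List Bool × CSt =>
      ctxOf (Nf p.1) (wf p.1) (g p.1).1 (List.range (nx p.1)) p.2) := by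
    unfold ctxOf
    have h1 : Poly (fun p : List Bool × CSt => p.1) := Poly.fst Poly.id
    have h2 : Poly (fun p : List Bool × CSt => p.2) := Poly.snd Poly.id
    refine Poly.pair (pC.comp h1)
      (Poly.pair (Clo.poly_drop (pjs.comp h1) (Poly.add (Poly.fst h2) (NPC.Poly.const 1)))
      (Poly.pair (Poly.fst (Poly.snd h2)) (Poly.pair (Poly.getD (pjs.comp h1)
        (Poly.fst h2) (NPC.Poly.const 0)) (Poly.pair ?_ ?_))))
    · exact prep (uN.comp h1) ()
    · exact prep (uw.comp h1) ()
  have pQ : Poly (fun p : List Bool × CSt => qryC f (Nf p.1) (wf p.1) (g p.1).1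
      (List.range (nx p.1)) p.2) := by
    unfold qryC
    refine NPC.Poly.map (l := fun p : List Bool × CSt => p.2.2.2.2.2.2.tail)
      (F := fun p u => f (bits ((ctxOf (Nf p.1) (wf p.1) (g p.1).1 (List.range (nx p.1))
        p.2, u) : Ctx × List Bool)))
      (Poly.tail (Poly.snd (Poly.snd (Poly.snd (Poly.snd (Poly.snd (Poly.snd Poly.id))))))) ?_
    exact Poly.comp (g := fun z : Ctx × List Bool => f (bits z))
      (f := fun p : (List Bool × CSt) × List Bool => (ctxOf (Nf p.1.1) (wf p.1.1)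
        (g p.1.1).1 (List.range (nx p.1.1)) p.1.2, p.2)) pf
      (Poly.pair (pctx.comp (Poly.fst Poly.id)) (Poly.snd Poly.id))
  have pstep : Poly (fun p : List Bool × CSt × ℕ => stepC (Qf p.1) (Mf p.1) (Nf p.1) (wf p.1)
      (List.range (nx p.1)) p.2.1 p.2.2) := by
    have h1 : Poly (fun p : List Bool × CSt × ℕ => p.1) := Poly.fst Poly.id
    exact hPS _ _ _ _ _ _ _ _ _ (pQ0.comp h1) (uM.comp h1) (uN.comp h1) (uw.comp h1)
      (pjs.comp h1) (Poly.fst (Poly.snd Poly.id)) (Poly.snd (Poly.snd Poly.id))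
      (fun p => hQ0 p.1)
  have pout : Poly (fun p : List Bool × CSt => outC (g p.1).1 (nx p.1) (dec p.1) p.2) := by
    unfold outC
    have h1 : Poly (fun p : List Bool × CSt => p.1) := Poly.fst Poly.id
    have h2 : Poly (fun p : List Bool × CSt => p.2) := Poly.snd Poly.id
    have hm : Poly (fun p : List Bool × CSt => mat (g p.1).1 p.2.2.1) :=
      hPV _ _ _ _ (pC.comp h1) (Poly.fst (Poly.snd h2))
    refine Poly.ite (Poly.decide_eq (un.toPoly.comp h1) (NPC.Poly.const 0)) ?_ ?_
    · exact Poly.comp (g := fun p : List Bool × ℕ => dec p.1 p.2)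
        (f := fun p : List Bool × CSt => (p.1, mat (g p.1).1 p.2.2.1)) pdec (Poly.pair h1 hm)
    · refine Poly.any (l := fun p : List Bool × CSt => p.2.2.2.1)
        (p := fun p t => decide (t.1 = mat (g p.1).1 p.2.2.1) && dec p.1 t.2)
        (Poly.fst (Poly.snd (Poly.snd h2))) ?_
      refine Poly.and (Poly.decide_eq (Poly.fst (Poly.snd Poly.id)) (hm.comp (Poly.fst Poly.id)))
        ?_
      exact Poly.comp (g := fun p : List Bool × ℕ => dec p.1 p.2)
        (f := fun p : (List Bool × CSt) × ℕ × ℕ => (p.1.1, p.2.2)) pdec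
        (Poly.pair (Poly.fst (Poly.fst Poly.id)) (Poly.snd (Poly.snd Poly.id)))
  have pneed : Poly (fun p : List Bool × CSt => decide (p.2.1 < (List.range (nx p.1)).length) &&
      decide (Mf p.1 < p.2.2.2.2.2.2.length)) := by
    have h1 : Poly (fun p : List Bool × CSt => p.1) := Poly.fst Poly.id
    have h2 : Poly (fun p : List Bool × CSt => p.2) := Poly.snd Poly.id
    exact Poly.and (Poly.decide_lt (Poly.fst h2) (Poly.length (pjs.comp h1)))
      (Poly.decide_lt (uM.toPoly.comp h1)
        (Poly.length (Poly.snd (Poly.snd (Poly.snd (Poly.snd (Poly.snd h2)))))))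
  -- sizes
  set SS : Polynomial ℕ := (Polynomial.C 4 * Polynomial.X + Polynomial.C 1) +
    (Polynomial.X * (Polynomial.C 4 * Polynomial.X + Polynomial.C 2) + Polynomial.C 1) +
    (MM * (MM + Polynomial.C 1) * (Polynomial.C 8 * KP + Polynomial.C 8) + Polynomial.C 1) +
    (MM * (Polynomial.C 4 * KP + Polynomial.C 6) + Polynomial.C 1) +
    (Polynomial.C 4 * (NP * WP) + Polynomial.C 1) +
    (Polynomial.C 2 * MM * (Polynomial.C 4 * (NP * WP) + Polynomial.C 2) + Polynomial.C 1) +
    Polynomial.C 5 with hSS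
  have eSS : ∀ t, SS.eval t = (4 * t + 1) + (t * (4 * t + 2) + 1) +
      (MM.eval t * (MM.eval t + 1) * (8 * KP.eval t + 8) + 1) +
      (MM.eval t * (4 * KP.eval t + 6) + 1) + (4 * (NP.eval t * WP.eval t) + 1) +
      (2 * MM.eval t * (4 * (NP.eval t * WP.eval t) + 2) + 1) + 5 := fun t => by
    rw [hSS]
    simp only [Polynomial.eval_add, Polynomial.eval_mul, Polynomial.eval_C, Polynomial.eval_X]
  set QQ : Polynomial ℕ := Polynomial.C 2 * MM * (Polynomial.C 4 * nf + Polynomial.C 2) +
    Polynomial.C 1 with hQQd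
  have eQQ : ∀ ω, QQ.eval ω = 2 * MM.eval ω * (4 * nf.eval ω + 2) + 1 := fun ω => by
    rw [hQQd]
    simp only [Polynomial.eval_add, Polynomial.eval_mul, Polynomial.eval_C]
  set TT : Polynomial ℕ := Polynomial.X * (NP * WP * (MM + Polynomial.C 1) + Polynomial.C 3) +
    (NP * WP * (MM + Polynomial.C 1) + Polynomial.C 1) + Polynomial.C 1 with hTT
  have eTT : ∀ t, TT.eval t = t * (NP.eval t * WP.eval t * (MM.eval t + 1) + 3) +
      (NP.eval t * WP.eval t * (MM.eval t + 1) + 1) + 1 := fun t => by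
    rw [hTT]
    simp only [Polynomial.eval_add, Polynomial.eval_mul, Polynomial.eval_C, Polynomial.eval_X]
  have hshift : ∀ (K : Polynomial ℕ) (x : List Bool),
      (K.comp (G + Polynomial.C c0)).eval x.length = K.eval (tf x) := by
    intro K x
    rw [Polynomial.eval_comp]
    simp only [Polynomial.eval_add, Polynomial.eval_C, htf]
  set Shx : List Bool → CSt → Prop := fun x s =>
    ShC (Qf x) (Mf x) (Nf x) (wf x) (nx x) (nx x) s with hShx
  have hqlen : ∀ (x : List Bool) (s : CSt), Shx x s → ∀ y ∈ qryC f (Nf x) (wf x) (g x).1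
      (List.range (nx x)) s, y.length ≤ nf.eval (tf x) := by
    intro x s hs y hy
    unfold qryC at hy
    rw [List.mem_map] at hy
    obtain ⟨u, hu, rfl⟩ := hy
    have h1 := hqf ((ctxOf (Nf x) (wf x) (g x).1 (List.range (nx x)) s, u) : Ctx × List Bool)
    have h2 := length_lt_sz (f (bits ((ctxOf (Nf x) (wf x) (g x).1 (List.range (nx x)) s, u) :
      Ctx × List Bool)))
    have h3 := sz_ctx (NN := NP.eval (tf x)) (ww := WP.eval (tf x)) hs (hA2 x) (hC x) (hn x)
      (hNN x) le_rfl (u := u) (by rw [hs.c_len u (List.mem_of_mem_tail hu)]; omega)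
    rw [← eZ] at h3
    have h4 := eval_mono qf h3
    rw [hnf, Polynomial.eval_comp]
    omega
  refine ⟨{
    S := CSt
    enc := inferInstance
    init := fun x => initC (nx x) (Nf x) (wf x)
    need := fun x s => decide (s.1 < (List.range (nx x)).length) &&
      decide (Mf x < s.2.2.2.2.2.length)
    Q := fun x s => qryC f (Nf x) (wf x) (g x).1 (List.range (nx x)) s
    step := fun x s k => stepC (Qf x) (Mf x) (Nf x) (wf x) (List.range (nx x)) s k
    out := fun x s => outC (g x).1 (nx x) (dec x) s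
    T := TT.comp (G + Polynomial.C c0)
    nn := nf.comp (G + Polynomial.C c0)
    B := (SS + QQ).comp (G + Polynomial.C c0)
    Sh := Shx
    Inv := fun x s => InvC (Nf x) (wf x) (g x).1 (List.range (nx x)) (fc x) s
    p_init := pinit
    p_need := pneed
    p_Q := pQ
    p_step := pstep
    p_out := pout
    sh0 := fun x => init_shapeC (hM1 x)
    sh_step := fun x s k hs => ?_
    sh_sz := fun x s hs => ?_
    inv0 := fun x => init_invC (hg x)
    q_len := fun x s hs y hy => ?_
    q_sz := fun x s hs => ?_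
    q_card := fun x s hs hn => ?_
    q_pat := fun x s hs hi hn => ?_
    inv_q := fun x s k hs hi hn hk hp => ?_
    inv_n := fun x s k hs hi hn => ?_
    fin := fun x ks hi => ?_ }⟩
  · have h1 := stepC_shape (js := List.range (nx x)) (hQ0 x) (hM1 x)
      (s := s) (k := nx x) (by rw [List.length_range]; exact hs) k
    rw [List.length_range] at h1
    exact h1
  · rw [hshift]
    have h1 := sz_state (NN := NP.eval (tf x)) (ww := WP.eval (tf x)) (K := KP.eval (tf x)) hs
      (hA2 x) (hn x) (Nat.pow_le_pow_right (by norm_num) (hKK x)) (hNN x) le_rfl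
    rw [Polynomial.eval_add, eSS]
    exact le_trans h1 (Nat.le_add_right _ _)
  · rw [hshift]
    exact hqlen x s hs y hy
  · rw [hshift, Polynomial.eval_add, eQQ]
    have h1 := sz_le_length_mul (qryC f (Nf x) (wf x) (g x).1 (List.range (nx x)) s)
      (4 * nf.eval (tf x) + 1) (by
        intro y hy
        have e1 := hqlen x s hs y hy
        have e2 := sz_listBool_le y
        omega)
    have h2 : (qryC f (Nf x) (wf x) (g x).1 (List.range (nx x)) s).length ≤
        2 * MM.eval (tf x) := by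
      unfold qryC
      rw [List.length_map, List.length_tail]
      have := hs.short
      simp only [hMf] at this
      omega
    have h3 := Nat.mul_le_mul_right (4 * nf.eval (tf x) + 1 + 1) h2
    have h4 : 4 * nf.eval (tf x) + 1 + 1 = 4 * nf.eval (tf x) + 2 := by ring
    rw [h4] at h1 h3
    omega
  · rw [hshift]
    simp only [Bool.and_eq_true, decide_eq_true_eq] at hn
    unfold qryC
    rw [List.length_map, List.length_tail]
    have h1 := hn.2
    simp only [hMf] at h1
    rw [eMM] at h1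
    omega
  · simp only [Bool.and_eq_true, decide_eq_true_eq] at hn
    obtain ⟨k0, hk0, hk0w⟩ := List.getElem_of_mem (hi.2 hn.1)
    refine ⟨k0, pattern_target (fun u hu => hf _ u ?_ ?_) hs.c_len hs.sorted hk0 hk0w⟩
    · exact vec_lt hB (hM1 x) rfl (hw x) hs.a_le
    · unfold ctxOf
      simp only [List.length_replicate]
      omega
  · exact stepC_inv hDeg hE1 hE2 hB hTr rfl (hQQ x) (hw x) (hM1 x) hf
      (by rw [List.length_range]; exact hs) hi k (fun _ _ => ⟨hk, hp⟩)
  · refine stepC_inv hDeg hE1 hE2 hB hTr rfl (hQQ x) (hw x) (hM1 x) hf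
      (by rw [List.length_range]; exact hs) hi k (fun h1 h2 => ?_)
    exfalso
    rw [Bool.and_eq_false_iff] at hn
    rcases hn with h3 | h3
    · exact (of_decide_eq_false h3) h1
    · exact (of_decide_eq_false h3) h2
  · have hT : (TT.comp (G + Polynomial.C c0)).eval x.length = TT.eval (tf x) := hshift TT x
    have hrank := run_rank (Q := Qf x) (M := Mf x) (N := Nf x) (w := wf x)
      (js := List.range (nx x)) (initC (nx x) (Nf x) (wf x))
      ks ((TT.comp (G + Polynomial.C c0)).eval x.length) (by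
        rw [hT, eTT]
        unfold potC initC
        simp only [List.length_cons, List.length_nil, Nat.sub_zero, List.length_range]
        have e2 : Nf x * wf x * (Mf x + 1) ≤
            NP.eval (tf x) * WP.eval (tf x) * (MM.eval (tf x) + 1) :=
          Nat.mul_le_mul_right _ (Nat.mul_le_mul_right _ (hNN x))
        have e3 := Nat.mul_le_mul (hn x) (Nat.add_le_add_right e2 3)
        omega)
      (Nat.zero_le _)
    rw [out_iff hi hrank, hL x]

end Pool.Agent.H334R5.Ct
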