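import Pool.Agent.H334R5.Ct.Stmts
import Pool.Agent.H334R5.Ct.Mach2
import Pool.Agent.H334R5.Ps.Conv

/-!
# Counting and threshold patterns: simple facts
-/

set_option autoImplicit false

namespace Pool.Agent.H334R5.Ct

open Pool.Agent.NPC
open Pool.Agent.NPC.Cnt (SharpP FP)
open Pool.Agent.NPC.Med (InPPc sharpP_compl card_length_eq gt_inPP poly_two_pow)
open Pool.Agent.H334R5.Cnt (usz bits_poly fpoly_of_poly)

theorem card_le {V : List Bool → List Bool} (p : Polynomial ℕ) (x : List Bool) :
    Nat.card {w : List Bool // w.length = p.eval x.length ∧ V (pairBits x w) = [true]} ≤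
      2 ^ p.eval x.length := by
  rw [← card_length_eq]
  have hfin : Finite {w : List Bool // w.length = p.eval x.length} :=
    (List.finite_length_eq Bool (p.eval x.length)).to_subtype
  exact Nat.card_le_card_of_injective (fun w => ⟨w.1, w.2.1⟩) (by
    intro a b h
    simp only [Subtype.mk.injEq] at h
    exact Subtype.ext h)

theorem u2pow (p : Polynomial ℕ) : Poly (fun x : List Bool => 2 ^ p.eval x.length) :=
  poly_two_pow ((UPoly.length Poly.id).eval p)

/-- `PP` is closed under complements, in the form needed here. -/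
theorem compl_reduces {A L : Set (List Bool)} (hA : PPHard A) (hL : InPPc L) : Reduces Lᶜ A := by
  obtain ⟨V, p, hV, hVL⟩ := hL
  refine Reduces.trans ?_ (hA _ (gt_inPP (sharpP_compl (p := p) hV)))
  refine ⟨fun x => bits ((x, (2 ^ p.eval x.length - 1) / 2) : List Bool × ℕ), ?_, fun x => ?_⟩
  · have h1 : Poly (fun x : List Bool => (2 ^ p.eval x.length - 1) / 2) :=
      Poly.div (Poly.sub (u2pow p) (NPC.Poly.const 1)) (NPC.Poly.const 2)
    exact PIso.poly_iff.1 (Poly.comp (g := fun z : List Bool × ℕ => bits z) bits_poly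
      (Poly.pair Poly.id h1))
  · rw [bits_mem_lang, Set.mem_compl_iff, hVL x]
    have h1 := card_le (V := V) p x
    have h2 : 0 < 2 ^ p.eval x.length := by positivity
    simp only
    omega

/-- The machine for a set in `PP`. -/
theorem machPP (hTruth : TaskTruth) (hDeg : TaskDegree) (hE1 : TaskExtr1) (hE2 : TaskExtr2)
    (hB : TaskBound) (hLB : TaskLBval) (hSh : TaskSharp) (hExp : Ps.TaskExp) (hPV : TaskPolyVal)
    (hPS : TaskPolyStep) (hTr : TaskTrans) {A L : Set (List Bool)} (q : Polynomial ℕ)
    (hA : PPHard A) (hL : InPPc L) : Nonempty (Ps.Mach A L q) := by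
  obtain ⟨V, p, hV, hVL⟩ := hL
  obtain ⟨g, pg, hg⟩ := hTruth _ ⟨V, p, hV, fun x => rfl⟩
  refine machC_core hDeg hE1 hE2 hB hLB hSh hExp hPV hPS hTr q (g := g)
    (dec := fun x m => decide (2 ^ p.eval x.length < 2 * m)) hA pg hg ?_ ?_
  · exact Poly.decide_lt ((u2pow p).comp (Poly.fst Poly.id))
      (Poly.mul (NPC.Poly.const 2) (Poly.snd Poly.id))
  · intro x
    rw [decide_eq_true_eq]
    exact hVL x

/-- The machine for the bits of a function in `#P`. -/
theorem machBits (hTruth : TaskTruth) (hDeg : TaskDegree) (hE1 : TaskExtr1) (hE2 : TaskExtr2)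
    (hB : TaskBound) (hLB : TaskLBval) (hSh : TaskSharp) (hExp : Ps.TaskExp) (hPV : TaskPolyVal)
    (hPS : TaskPolyStep) (hTr : TaskTrans) {A : Set (List Bool)} (q : Polynomial ℕ)
    (hA : PPHard A) {f : List Bool → ℕ} (hf : SharpP f) :
    Nonempty (Ps.Mach A (lang fun y : List Bool × ℕ => (f y.1).testBit y.2 = true) q) := by
  obtain ⟨g, pg, hg⟩ := hTruth f hf
  set h : List Bool → List Bool := fun x => (unbits (List Bool × ℕ) x).elim [] (fun t => t.1)
    with hh
  have ph : Poly h := Poly.optElim (o := fun x : List Bool => unbits (List Bool × ℕ) x)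
    (g := fun _ => []) (h := fun _ t => t.1) poly_unbits (NPC.Poly.const _)
    (Poly.fst (Poly.snd Poly.id))
  refine machC_core hDeg hE1 hE2 hB hLB hSh hExp hPV hPS hTr q (g := fun x => g (h x))
    (fc := fun x => f (h x))
    (dec := fun x m => (unbits (List Bool × ℕ) x).elim false (fun t =>
      m.bits.getD t.2 false)) hA (pg.comp ph) (fun x => hg (h x)) ?_ ?_
  · refine Poly.optElim (o := fun p : List Bool × ℕ => unbits (List Bool × ℕ) p.1)
      (g := fun _ => false) (h := fun p t => p.2.bits.getD t.2 false)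
      (poly_unbits.comp (Poly.fst Poly.id)) (NPC.Poly.const _) ?_
    exact Poly.getD (Poly.natBits (Poly.snd (Poly.fst Poly.id))) (Poly.snd (Poly.snd Poly.id))
      (NPC.Poly.const false)
  · intro x
    rw [mem_lang_iff]
    cases hx : unbits (List Bool × ℕ) x with
    | none => simp
    | some t =>
      simp only [hh, hx, Option.elim_some, Option.some.injEq, exists_eq_left']
      rw [Nat.testBit_eq_inth]
      rfl

end Pool.Agent.H334R5.Ct
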