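import Pool.Agent.H334R5.Ct.Stmts
import Pool.Agent.H334R5.Ps.Mach

/-!
# TASK Bound (helper741)
-/

set_option autoImplicit false

namespace Pool.Agent.H334R5.Ct

open Pool.Agent.H334R5.Ps (upd lc)

theorem lt_le {A x : ℕ} (b : Bool) (hA : 1 ≤ A) (hx : x ≤ A) : lt b x ≤ A * A := by
  unfold lt
  split_ifs with h1 h2
  · nlinarith
  · nlinarith
  · exact Nat.mul_le_mul (by omega) (by omega)

theorem getD_le {A : ℕ} {a : List ℕ} (ha : ∀ y ∈ a, y ≤ A) (i : ℕ) : a.getD i 0 ≤ A := by
  rcases Nat.lt_or_ge i a.length with h | h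
  · rw [List.getD_eq_getElem _ _ h]
    exact ha _ (List.getElem_mem h)
  · rw [List.getD_eq_default _ _ h]
    exact Nat.zero_le _

theorem cls_le {A : ℕ} {a : List ℕ} (hA : 1 ≤ A) (ha : ∀ y ∈ a, y ≤ A)
    (c : List (Bool × ℕ)) : cls a c ≤ (2 * A * A) ^ c.length := by
  induction c with
  | nil => simp [cls]
  | cons l c ih =>
    have h1 := lt_le l.1 hA (getD_le ha l.2)
    have h2 := lt_le (!l.1) hA (getD_le ha l.2)
    have h3 : 1 ≤ (2 * A * A) ^ c.length := Nat.one_le_pow _ _ (by positivity)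
    have h4 : cls a (l :: c) = lt l.1 (a.getD l.2 0) + lt (!l.1) (a.getD l.2 0) * cls a c := rfl
    rw [h4, List.length_cons, pow_succ]
    calc lt l.1 (a.getD l.2 0) + lt (!l.1) (a.getD l.2 0) * cls a c
        ≤ A * A * (2 * A * A) ^ c.length + A * A * (2 * A * A) ^ c.length :=
          Nat.add_le_add (h1.trans (Nat.le_mul_of_pos_right _ h3)) (Nat.mul_le_mul h2 ih)
      _ = (2 * A * A) ^ c.length * (2 * A * A) := by ring

theorem mat_le {A : ℕ} {a : List ℕ} (hA : 1 ≤ A) (ha : ∀ y ∈ a, y ≤ A)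
    (C : List (List (Bool × ℕ))) : mat C a ≤ (2 * A * A) ^ lc C := by
  induction C with
  | nil => simp [mat, lc]
  | cons c C ih =>
    have h1 : mat (c :: C) a = cls a c * mat C a := rfl
    have h2 : lc (c :: C) = c.length + lc C := by simp [lc]
    rw [h1, h2, pow_add]
    exact Nat.mul_le_mul (cls_le hA ha c) ih

/-- TASK Bound. -/
theorem taskBound : TaskBound := by
  intro C js
  induction js with
  | nil =>
    intro a A hA ha
    simpa [val] using mat_le hA ha C
  | cons j js ih =>
    intro a A hA ha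
    have h : ∀ v, v ≤ 1 → val C js (upd a j v) ≤ 2 ^ js.length * (2 * A * A) ^ lc C := by
      intro v hv
      apply ih _ A hA
      intro y hy
      rcases Pool.Agent.H334R5.Ps.mem_upd hy with rfl | hy
      · omega
      · exact ha y hy
    have h0 := h 0 (by omega)
    have h1 := h 1 le_rfl
    have e : val C (j :: js) a = val C js (upd a j 0) + val C js (upd a j 1) := rfl
    rw [e, List.length_cons, pow_succ]
    calc val C js (upd a j 0) + val C js (upd a j 1)
        ≤ 2 ^ js.length * (2 * A * A) ^ lc C + 2 ^ js.length * (2 * A * A) ^ lc C :=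
          Nat.add_le_add h0 h1
      _ = _ := by ring

end Pool.Agent.H334R5.Ct
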