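import Pool.Agent.H334R5.Ct.Stmts

set_option autoImplicit false

namespace Pool.Agent.H334R5.Ct

open Pool.Agent.H334R5.Ps (upd lc)

namespace Deg

/-- polynomial functions -/
def IsPol (d : ℕ) (f : ℕ → ℕ) : Prop :=
  ∃ g : Polynomial ℤ, g.natDegree ≤ d ∧ ∀ z : ℕ, ((f z : ℕ) : ℤ) = g.eval (z : ℤ)

theorem IsPol.mono {d e : ℕ} {f : ℕ → ℕ} (h : IsPol d f) (hde : d ≤ e) : IsPol e f := by
  obtain ⟨g, h1, h2⟩ := h
  exact ⟨g, h1.trans hde, h2⟩

theorem isPol_const (d c : ℕ) : IsPol d (fun _ => c) :=
  ⟨Polynomial.C (c : ℤ), by simp, fun z => by simp⟩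

theorem isPol_id : IsPol 1 (fun z => z) :=
  ⟨Polynomial.X, Polynomial.natDegree_X_le, fun z => by simp⟩

theorem IsPol.mul {d e : ℕ} {f h : ℕ → ℕ} (hf : IsPol d f) (hh : IsPol e h) :
    IsPol (d + e) (fun z => f z * h z) := by
  obtain ⟨g, g1, g2⟩ := hf
  obtain ⟨k, k1, k2⟩ := hh
  refine ⟨g * k, Polynomial.natDegree_mul_le.trans (add_le_add g1 k1), fun z => ?_⟩
  rw [Nat.cast_mul, g2, k2, Polynomial.eval_mul]

theorem IsPol.add {d : ℕ} {f h : ℕ → ℕ} (hf : IsPol d f) (hh : IsPol d h) :
    IsPol d (fun z => f z + h z) := by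
  obtain ⟨g, g1, g2⟩ := hf
  obtain ⟨k, k1, k2⟩ := hh
  refine ⟨g + k, (Polynomial.natDegree_add_le _ _).trans (max_le g1 k1), fun z => ?_⟩
  rw [Nat.cast_add, g2, k2, Polynomial.eval_add]

theorem cast_lt_false (x : ℕ) : ((lt false x : ℕ) : ℤ) = ((x : ℤ) - 1) * ((x : ℤ) - 1) := by
  unfold lt
  rw [if_neg (by decide)]
  split_ifs with h
  · subst h; simp
  · have : 1 ≤ x := Nat.one_le_iff_ne_zero.2 h
    push_cast [Nat.cast_sub this]
    ring

theorem IsPol.lt {f : ℕ → ℕ} (hf : IsPol 1 f) (b : Bool) :
    IsPol 2 (fun z => Pool.Agent.H334R5.Ct.lt b (f z)) := by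
  cases b with
  | true =>
    refine (hf.mono one_le_two).imp fun g hg => ⟨hg.1, fun z => ?_⟩
    rw [← hg.2 z]
    rfl
  | false =>
    obtain ⟨g, g1, g2⟩ := hf
    refine ⟨(g - 1) * (g - 1), ?_, fun z => ?_⟩
    · have h1 : (g - 1).natDegree ≤ 1 :=
        (Polynomial.natDegree_sub_le _ _).trans (max_le g1 (by simp))
      exact Polynomial.natDegree_mul_le.trans (add_le_add h1 h1)
    · rw [cast_lt_false, g2]
      simp

theorem getD_upd (a : List ℕ) (j v i : ℕ) :
    (upd a j v).getD i 0 = if i < a.length then (if i = j then v else a.getD i 0) else 0 := by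
  unfold upd
  by_cases h : i < a.length
  · rw [if_pos h, List.getD_eq_getElem _ _ (by simpa using h)]
    simp
  · rw [if_neg h, List.getD_eq_default _ _ (by simpa using h)]

theorem upd_upd_same (a : List ℕ) (j v w : ℕ) : upd (upd a j v) j w = upd a j w := by
  unfold upd
  simp only [List.length_map, List.length_range]
  apply List.map_congr_left
  intro i hi
  rw [List.mem_range] at hi
  by_cases h : i = j
  · simp [h]
  · rw [if_neg h, if_neg h]
    have := getD_upd a j v i
    unfold upd at this
    rw [this, if_pos hi, if_neg h]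

theorem upd_comm (a : List ℕ) (i j v w : ℕ) (hij : i ≠ j) :
    upd (upd a j v) i w = upd (upd a i w) j v := by
  unfold upd
  simp only [List.length_map, List.length_range]
  apply List.map_congr_left
  intro k hk
  rw [List.mem_range] at hk
  have h1 := getD_upd a j v k
  have h2 := getD_upd a i w k
  unfold upd at h1 h2
  rw [h1, h2, if_pos hk, if_pos hk]
  by_cases h : k = i
  · have h' : k ≠ j := fun e => hij (h ▸ e)
    simp [h, hij]
  · by_cases h' : k = j
    · simp [h', Ne.symm hij]
    · simp [h, h']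

theorem isPol_getD (a : List ℕ) (j i : ℕ) : IsPol 1 (fun z => (upd a j z).getD i 0) := by
  simp only [getD_upd]
  split_ifs
  · exact isPol_id
  · exact isPol_const 1 _
  · exact isPol_const 1 _

theorem isPol_cls (a : List ℕ) (j : ℕ) (c : List (Bool × ℕ)) :
    IsPol (2 * c.length) (fun z => cls (upd a j z) c) := by
  induction c with
  | nil => exact isPol_const _ 0
  | cons l c ih =>
    have e : (fun z => cls (upd a j z) (l :: c)) = fun z =>
        lt l.1 ((upd a j z).getD l.2 0) + lt (!l.1) ((upd a j z).getD l.2 0) *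
          cls (upd a j z) c := rfl
    rw [e]
    have h1 := ((isPol_getD a j l.2).lt l.1).mono (show 2 ≤ 2 * (l :: c).length by
      rw [List.length_cons]; omega)
    have h2 := (((isPol_getD a j l.2).lt (!l.1)).mul ih).mono
      (show 2 + 2 * c.length ≤ 2 * (l :: c).length by rw [List.length_cons]; omega)
    exact h1.add h2

theorem isPol_mat (C : List (List (Bool × ℕ))) (a : List ℕ) (j : ℕ) :
    IsPol (2 * lc C) (fun z => mat C (upd a j z)) := by
  induction C with
  | nil => exact isPol_const _ 1
  | cons c C ih =>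
    have e : (fun z => mat (c :: C) (upd a j z)) = fun z =>
        cls (upd a j z) c * mat C (upd a j z) := rfl
    rw [e]
    refine ((isPol_cls a j c).mul ih).mono ?_
    unfold lc
    rw [List.map_cons, List.sum_cons]
    omega

theorem isPol_val (C : List (List (Bool × ℕ))) (j : ℕ) (js : List ℕ) :
    ∀ a : List ℕ, IsPol (2 * lc C) (fun z => val C js (upd a j z)) := by
  induction js with
  | nil => exact fun a => isPol_mat C a j
  | cons i js ih =>
    intro a
    have e : (fun z => val C (i :: js) (upd a j z)) = fun z =>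
      val C js (upd (upd a j z) i 0) + val C js (upd (upd a j z) i 1) := rfl
    rw [e]
    by_cases hj : i = j
    · subst hj
      simp only [upd_upd_same]
      exact isPol_const _ _
    · have e2 : ∀ z v, upd (upd a j z) i v = upd (upd a i v) j z := fun z v =>
        upd_comm a i j z v hj
      simp only [e2]
      exact (ih (upd a i 0)).add (ih (upd a i 1))

end Deg

theorem taskDegree : TaskDegree := fun C js a j => Deg.isPol_val C j js a

end Pool.Agent.H334R5.Ct
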