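import Pool.Agent.H334R5.Ct.Stmts

/-! TASK Extr2 of the project H334-COUNT (helper2). -/

set_option autoImplicit false

namespace Pool.Agent.H334R5.Ct

open Finset
open Pool.Agent.H334R5.Ps (dif newton shf extr)

namespace Ex2

/-- `v` is the list of the values of `h` at `0, 1, …, n - 1`. -/
def Vals {Q : ℕ} (h : ℕ → ZMod Q) (n : ℕ) (v : List ℕ) : Prop :=
  v.length = n ∧ ∀ i < n, ((v.getD i 0 : ℕ) : ZMod Q) = h i

theorem getD_map_range (f : ℕ → ℕ) (n i : ℕ) (hi : i < n) :
    ((List.range n).map f).getD i 0 = f i := by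
  rw [List.getD_eq_getElem _ _ (by simpa using hi)]
  simp

theorem cast_sub_mod {Q : ℕ} (hQ : 0 < Q) (x : ℕ) :
    ((Q - x % Q : ℕ) : ZMod Q) = - (x : ZMod Q) := by
  rw [Nat.cast_sub (Nat.mod_lt x hQ).le, ZMod.natCast_mod]
  simp

theorem vals_dif {Q : ℕ} (hQ : 0 < Q) (h : ℕ → ZMod Q) (n : ℕ) (v : List ℕ)
    (hv : Vals h n v) : Vals (fwdDiff (1 : ℕ) h) (n - 1) (dif Q v) := by
  obtain ⟨hl, hv⟩ := hv
  refine ⟨by simp [dif, hl], fun i hi => ?_⟩
  unfold dif
  rw [getD_map_range _ _ _ (by rw [hl]; exact hi), ZMod.natCast_mod, Nat.cast_add,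
    cast_sub_mod hQ, hv (i + 1) (by omega), hv i (by omega)]
  simp [fwdDiff, sub_eq_add_neg]

theorem vals_iter {Q : ℕ} (hQ : 0 < Q) (h : ℕ → ZMod Q) (n : ℕ) (v : List ℕ)
    (hv : Vals h n v) (k : ℕ) :
    Vals ((fwdDiff (1 : ℕ))^[k] h) (n - k) ((List.range k).foldl (fun u _ => dif Q u) v) := by
  induction k with
  | zero => simpa using hv
  | succ k ih =>
    rw [List.range_succ, List.foldl_append, Function.iterate_succ_apply', Nat.sub_succ']
    exact vals_dif hQ _ _ _ ih

theorem newton_spec {Q : ℕ} (hQ : 0 < Q) (h : ℕ → ZMod Q) (n : ℕ) (v : List ℕ)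
    (hv : Vals h n v) : (newton Q v).length = n ∧
      ∀ k < n, (((newton Q v).getD k 0 : ℕ) : ZMod Q) = ((fwdDiff (1 : ℕ))^[k] h) 0 := by
  refine ⟨by simp [newton, hv.1], fun k hk => ?_⟩
  unfold newton
  rw [getD_map_range _ _ _ (by rw [hv.1]; exact hk)]
  have h1 := vals_iter hQ h n v hv k
  have h2 := h1.2 0 (by omega)
  rw [← h2]
  congr 1
  cases (List.range k).foldl (fun u _ => dif Q u) v <;> simp

/-- The Newton sum with shifted coefficients. -/
def E (D : ℕ → ℤ) (N k z : ℕ) : ℤ := ∑ j ∈ range N, D (k + j) * (z.choose j : ℤ)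

theorem E_succ (D : ℕ → ℤ) (N k z : ℕ) (hD : ∀ i, N ≤ i → D i = 0) :
    E D N k (z + 1) = E D N k z + E D N (k + 1) z := by
  cases N with
  | zero => simp [E]
  | succ n =>
    have e1 : E D (n + 1) k (z + 1) = ∑ j ∈ range n, D (k + (j + 1)) * (z.choose j : ℤ) +
        ∑ j ∈ range n, D (k + (j + 1)) * (z.choose (j + 1) : ℤ) + D k := by
      unfold E
      rw [sum_range_succ', ← sum_add_distrib]
      congr 1
      · refine sum_congr rfl fun j _ => ?_
        rw [Nat.choose_succ_succ]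
        push_cast
        ring
      · simp
    have e2 : E D (n + 1) k z = ∑ j ∈ range n, D (k + (j + 1)) * (z.choose (j + 1) : ℤ) + D k := by
      unfold E
      rw [sum_range_succ']
      simp
    have e3 : E D (n + 1) (k + 1) z = ∑ j ∈ range n, D (k + (j + 1)) * (z.choose j : ℤ) := by
      unfold E
      rw [sum_range_succ, hD (k + 1 + n) (by omega), zero_mul, add_zero]
      refine sum_congr rfl fun j _ => ?_
      rw [show k + 1 + j = k + (j + 1) by ring]
    rw [e1, e2, e3]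
    ring

theorem E_zero (D : ℕ → ℤ) (N k : ℕ) (hN : 1 ≤ N) : E D N k 0 = D k := by
  unfold E
  rw [Finset.sum_eq_single 0]
  · simp
  · intro j _ hj
    rw [Nat.choose_eq_zero_of_lt (Nat.pos_of_ne_zero hj)]
    simp
  · intro h
    exact absurd (mem_range.2 hN) h

theorem E_big (D : ℕ → ℤ) (N z : ℕ) (hD : ∀ i, N ≤ i → D i = 0) : E D N N z = 0 := by
  unfold E
  refine sum_eq_zero fun j _ => ?_
  rw [hD _ (by omega), zero_mul]

theorem iter_spec {Q : ℕ} (D : ℕ → ℤ) (N : ℕ) (hN : 1 ≤ N) (hD : ∀ i, N ≤ i → D i = 0)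
    (u : List ℕ) (hl : u.length = N)
    (hu : ∀ k < N, ((u.getD k 0 : ℕ) : ZMod Q) = ((D k : ℤ) : ZMod Q)) (z : ℕ) :
    ((List.range z).foldl (fun u _ => shf Q u) u).length = N ∧
      ∀ k < N, ((((List.range z).foldl (fun u _ => shf Q u) u).getD k 0 : ℕ) : ZMod Q) =
        ((E D N k z : ℤ) : ZMod Q) := by
  induction z with
  | zero =>
    refine ⟨by simpa using hl, fun k hk => ?_⟩
    rw [E_zero D N k hN]
    simpa using hu k hk
  | succ z ih =>
    rw [List.range_succ, List.foldl_append]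
    obtain ⟨ih1, ih2⟩ := ih
    set w := (List.range z).foldl (fun u _ => shf Q u) u with hw
    refine ⟨by simp [shf, ih1], fun k hk => ?_⟩
    simp only [List.foldl_cons, List.foldl_nil]
    unfold shf
    rw [getD_map_range _ _ _ (by rw [ih1]; exact hk), ZMod.natCast_mod, Nat.cast_add, ih2 k hk,
      E_succ D N k z hD, Int.cast_add]
    congr 1
    rcases Nat.lt_or_ge (k + 1) N with h2 | h2
    · exact ih2 _ h2
    · have h3 : k + 1 = N := by omega
      rw [h3, E_big D N z hD, List.getD_eq_default _ _ (by omega)]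
      simp

/-- The integer differences of the values. -/
noncomputable def D (N : ℕ) (v : List ℕ) (k : ℕ) : ℤ :=
  if k < N then ((fwdDiff (1 : ℕ))^[k] (fun i => ((v.getD i 0 : ℕ) : ℤ))) 0 else 0

theorem D_big (N : ℕ) (v : List ℕ) (i : ℕ) (hi : N ≤ i) : D N v i = 0 := by
  unfold D
  rw [if_neg (by omega)]

theorem cast_fwd {Q : ℕ} (f : ℕ → ℤ) (k : ℕ) (y : ℕ) :
    (((fwdDiff (1 : ℕ))^[k] f y : ℤ) : ZMod Q) =
      ((fwdDiff (1 : ℕ))^[k] (fun i => ((f i : ℤ) : ZMod Q))) y := by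
  induction k generalizing y with
  | zero => simp
  | succ k ih =>
    rw [Function.iterate_succ_apply', Function.iterate_succ_apply']
    simp only [fwdDiff, Int.cast_sub, ih]

theorem extr_spec {Q : ℕ} (hQ : 0 < Q) (N : ℕ) (hN : 1 ≤ N) (v : List ℕ) (hv : v.length = N)
    (z : ℕ) : ((extr Q v z : ℕ) : ZMod Q) = ((E (D N v) N 0 z : ℤ) : ZMod Q) := by
  have h1 := newton_spec hQ (fun i => ((v.getD i 0 : ℕ) : ZMod Q)) N v ⟨hv, fun i _ => rfl⟩
  have h2 := iter_spec (Q := Q) (D N v) N hN (D_big N v) (newton Q v) h1.1 (by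
    intro k hk
    rw [h1.2 k hk]
    unfold D
    rw [if_pos hk, cast_fwd]
    simp) z
  unfold extr
  rw [ZMod.natCast_mod]
  have h3 := h2.2 0 (by omega)
  rw [← h3]
  congr 1
  cases (List.range z).foldl (fun u _ => shf Q u) (newton Q v) <;> simp

theorem fwd_bound (f : ℕ → ℤ) (B : ℤ) (hf : ∀ i, |f i| ≤ B) (k : ℕ) (y : ℕ) :
    |(fwdDiff (1 : ℕ))^[k] f y| ≤ 2 ^ k * B := by
  induction k generalizing y with
  | zero => simpa using hf y
  | succ k ih =>
    rw [Function.iterate_succ_apply']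
    simp only [fwdDiff]
    have h1 := ih (y + 1)
    have h2 := ih y
    rw [pow_succ]
    rw [abs_le] at *
    constructor <;> linarith [h1.1, h1.2, h2.1, h2.2]

theorem D_bound (N w : ℕ) (v : List ℕ) (hv : ∀ y ∈ v, y < 2 ^ w) (k : ℕ) :
    |D N v k| ≤ 2 ^ N * 2 ^ w := by
  unfold D
  split_ifs with hk
  · refine (fwd_bound _ (2 ^ w) ?_ k 0).trans ?_
    · intro i
      rw [Nat.abs_cast]
      rcases Nat.lt_or_ge i v.length with hi | hi
      · rw [List.getD_eq_getElem _ _ hi]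
        exact_mod_cast (hv _ (List.getElem_mem hi)).le
      · rw [List.getD_eq_default _ _ hi]
        positivity
    · exact mul_le_mul_of_nonneg_right (pow_le_pow_right₀ (by norm_num) hk.le) (by positivity)
  · simp only [abs_zero]
    positivity

theorem E_bound (N w K : ℕ) (v : List ℕ) (hv : ∀ y ∈ v, y < 2 ^ w) (z : ℕ) (hz : z ≤ K) :
    |E (D N v) N 0 z| ≤ N * (2 ^ N * 2 ^ w * ((K : ℤ) + 1) ^ N) := by
  unfold E
  refine (abs_sum_le_sum_abs _ _).trans ?_
  have h : ∀ j ∈ range N, |D N v (0 + j) * (z.choose j : ℤ)| ≤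
      2 ^ N * 2 ^ w * ((K : ℤ) + 1) ^ N := by
    intro j hj
    rw [abs_mul, Nat.abs_cast]
    refine mul_le_mul (D_bound N w v hv _) ?_ (by positivity) (by positivity)
    have h1 : z.choose j ≤ (K + 1) ^ N :=
      ((Nat.choose_le_pow z j).trans (Nat.pow_le_pow_left (by omega) j)).trans
        (Nat.pow_le_pow_right (by omega) (mem_range.1 hj).le)
    exact_mod_cast h1
  refine (sum_le_sum h).trans ?_
  rw [sum_const, card_range, nsmul_eq_mul]

theorem E_node (N : ℕ) (v : List ℕ) (i : ℕ) (hi : i < N) :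
    E (D N v) N 0 i = ((v.getD i 0 : ℕ) : ℤ) := by
  have h := shift_eq_sum_fwdDiff_iter (1 : ℕ) (fun i => ((v.getD i 0 : ℕ) : ℤ)) i 0
  simp only [zero_add, smul_eq_mul, mul_one, nsmul_eq_mul] at h
  rw [h]
  unfold E
  have h2 : range (i + 1) ⊆ range N := range_subset_range.2 (by omega)
  rw [← sum_subset h2]
  · refine sum_congr rfl fun j hj => ?_
    have := mem_range.1 hj
    unfold D
    rw [zero_add, if_pos (by omega)]
    ring
  · intro j _ hj
    rw [mem_range, not_lt] at hj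
    rw [Nat.choose_eq_zero_of_lt (by omega)]
    simp

/-- The polynomial of the difference. -/
theorem exists_poly (N : ℕ) (hN : 1 ≤ N) (v v' : List ℕ) :
    ∃ p : Polynomial ℚ, p.natDegree ≤ N - 1 ∧
      ∀ z : ℕ, p.eval (z : ℚ) = ((E (D N v) N 0 z - E (D N v') N 0 z : ℤ) : ℚ) := by
  refine ⟨∑ k ∈ range N, Polynomial.C (((D N v k - D N v' k : ℤ) : ℚ) / (k.factorial : ℚ)) *
    descPochhammer ℚ k, ?_, ?_⟩
  · refine Polynomial.natDegree_sum_le_of_forall_le _ _ fun k hk => ?_
    refine (Polynomial.natDegree_C_mul_le _ _).trans ?_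
    rw [descPochhammer_natDegree]
    have := mem_range.1 hk
    omega
  · intro z
    rw [Polynomial.eval_finsetSum]
    unfold E
    rw [← sum_sub_distrib]
    push_cast
    refine sum_congr rfl fun k _ => ?_
    rw [Polynomial.eval_mul, Polynomial.eval_C, descPochhammer_eval_eq_descFactorial,
      Nat.descFactorial_eq_factorial_mul_choose]
    have hk : (k.factorial : ℚ) ≠ 0 := by exact_mod_cast k.factorial_ne_zero
    push_cast
    rw [zero_add]
    field_simp

theorem bad_card (Q N w K : ℕ) (hN : 1 ≤ N)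
    (hQ : 2 * (N * (2 ^ N * 2 ^ w * (K + 1) ^ N)) < Q) (v v' : List ℕ) (hv : v.length = N)
    (hv' : v'.length = N) (hb : ∀ y ∈ v, y < 2 ^ w) (hb' : ∀ y ∈ v', y < 2 ^ w) (hne : v ≠ v') :
    ((Finset.range (K + 1)).filter (fun z => extr Q v z = extr Q v' z)).card ≤ N - 1 := by
  classical
  have hQ0 : 0 < Q := by omega
  obtain ⟨p, hp, hpe⟩ := exists_poly N hN v v'
  have hp0 : p ≠ 0 := by
    intro h0
    apply hne
    apply List.ext_getElem (by rw [hv, hv'])
    intro i hi hi'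
    have h1 := hpe i
    rw [h0, Polynomial.eval_zero, E_node N v i (by omega), E_node N v' i (by omega),
      List.getD_eq_getElem _ _ hi, List.getD_eq_getElem _ _ hi'] at h1
    have h2 : (((v[i] : ℕ) : ℤ) - ((v'[i] : ℕ) : ℤ) : ℤ) = 0 := by exact_mod_cast h1.symm
    omega
  refine le_trans ?_ hp
  refine le_trans ?_ (Polynomial.card_roots' p)
  refine le_trans ?_ (Multiset.toFinset_card_le _)
  refine Finset.card_le_card_of_injOn (fun z : ℕ => (z : ℚ)) ?_ ?_
  · intro z hz
    obtain ⟨hz1, hz2⟩ := Finset.mem_filter.1 (Finset.mem_coe.1 hz)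
    have hzK : z ≤ K := Nat.lt_succ_iff.1 (Finset.mem_range.1 hz1)
    rw [Finset.mem_coe, Multiset.mem_toFinset, Polynomial.mem_roots hp0, Polynomial.IsRoot.def,
      hpe z]
    have h1 := extr_spec hQ0 N hN v hv z
    have h2 := extr_spec hQ0 N hN v' hv' z
    rw [hz2, h2] at h1
    have h3 := (ZMod.intCast_eq_intCast_iff_dvd_sub _ _ Q).1 h1
    have h4 := E_bound N w K v hb z hzK
    have h5 := E_bound N w K v' hb' z hzK
    have h6 : E (D N v) N 0 z - E (D N v') N 0 z = 0 := by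
      refine Int.eq_zero_of_abs_lt_dvd h3 ?_
      have h7 : (2 * (N * (2 ^ N * 2 ^ w * (K + 1) ^ N) ) : ℤ) < Q := by exact_mod_cast hQ
      have h8 := abs_sub (E (D N v) N 0 z) (E (D N v') N 0 z)
      linarith
    rw [h6]
    simp
  · intro i _ j _ hij
    exact Nat.cast_injective (R := ℚ) hij

end Ex2

open Ex2 in
theorem taskExtr2 : TaskExtr2 := by
  classical
  intro Q N M w V hN hQ hV hVN
  set S : Finset (List ℕ × List ℕ) :=
    (V.toFinset ×ˢ V.toFinset).filter (fun p => p.1 ≠ p.2) with hS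
  set bad : List ℕ × List ℕ → Finset ℕ := fun p =>
    (Finset.range (M * M * N + 1)).filter (fun z => extr Q p.1 z = extr Q p.2 z) with hbad
  have hb : ∀ p ∈ S, (bad p).card ≤ N - 1 := by
    intro p hp
    rw [hS, Finset.mem_filter, Finset.mem_product, List.mem_toFinset, List.mem_toFinset] at hp
    obtain ⟨⟨hp1, hp2⟩, hp3⟩ := hp
    exact bad_card Q N w (M * M * N) hN hQ p.1 p.2 (hVN _ hp1).1 (hVN _ hp2).1
      (hVN _ hp1).2 (hVN _ hp2).2 hp3
  have hcard : (S.biUnion bad).card ≤ S.card * (N - 1) :=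
    Finset.card_biUnion_le_card_mul S bad (N - 1) hb
  have hVc : V.toFinset.card ≤ M := (List.toFinset_card_le V).trans hV
  have hSc : S.card ≤ M * M := by
    refine (Finset.card_filter_le _ _).trans ?_
    rw [Finset.card_product]
    exact Nat.mul_le_mul hVc hVc
  have hlt : (S.biUnion bad).card < (Finset.range (M * M * N + 1)).card := by
    rw [Finset.card_range]
    refine lt_of_le_of_lt (hcard.trans (Nat.mul_le_mul hSc (Nat.sub_le N 1))) ?_
    exact Nat.lt_succ_self _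
  obtain ⟨z, hz, hzb⟩ := Finset.exists_mem_notMem_of_card_lt_card hlt
  refine ⟨z, Nat.lt_succ_iff.1 (Finset.mem_range.1 hz), ?_⟩
  intro v hv v' hv' hne he
  apply hzb
  rw [Finset.mem_biUnion]
  refine ⟨(v, v'), ?_, ?_⟩
  · rw [hS, Finset.mem_filter, Finset.mem_product, List.mem_toFinset, List.mem_toFinset]
    exact ⟨⟨hv, hv'⟩, hne⟩
  · rw [hbad, Finset.mem_filter]
    exact ⟨hz, he⟩

end Pool.Agent.H334R5.Ct
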