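import Pool.Agent.H334R5.Ct.Stmts

/-!
# Task FPbits: a function with polynomially many bits, each computable, is computable
-/

set_option autoImplicit false

namespace Pool.Agent.H334R5.Ct

open Pool.Agent.NPC
open Pool.Agent.NPC.Cnt (SharpP FP)

theorem valB_testBit (n : ℕ) : ∀ m : ℕ, m < 2 ^ n →
    valB ((List.range n).map fun i => m.testBit i) = m := by
  induction n with
  | zero =>
    intro m hm
    rw [pow_zero] at hm
    simp only [List.range_zero, List.map_nil, valB_nil]
    omega
  | succ n ih =>
    intro m hm
    rw [List.range_succ_eq_map, List.map_cons, valB_cons, List.map_map]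
    have h1 : ((fun i => m.testBit i) ∘ Nat.succ) = fun i => (m / 2).testBit i := by
      funext i
      simp [Nat.testBit_succ]
    rw [h1, ih (m / 2) (by rw [pow_succ] at hm; omega), Nat.testBit_zero]
    by_cases h : m % 2 = 1
    · simp only [h, decide_true, if_true]
      omega
    · simp only [h, decide_false, Bool.false_eq_true, if_false]
      omega

theorem taskFPbits : TaskFPbits := by
  intro f p hf hbit
  obtain ⟨V, hV, hV'⟩ := InPP.exists_test hbit
  have hVp : Poly V := PIso.poly_iff.2 hV
  -- the test as a polynomial-time function on typed data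
  have htest : Poly (fun y : List Bool × ℕ => decide (V (bits y) = [true])) :=
    NPC.Poly.decide_eq (hVp.comp Med.poly_bits) (NPC.Poly.const _)
  have htest' : Poly (fun y : List Bool × ℕ => (f y.1).testBit y.2) := by
    refine htest.congr fun y => ?_
    have h1 := hV' y
    by_cases h : (f y.1).testBit y.2 = true
    · rw [h, decide_eq_true (h1.1 h)]
    · rw [decide_eq_false (fun h2 => h (h1.2 h2))]
      exact ((Bool.not_eq_true _).mp h).symm
  have hrange : Poly (fun x : List Bool => List.range (p.eval x.length)) :=
    UPoly.range (UPoly.eval (UPoly.length NPC.Poly.id) p)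
  have hlist : Poly (fun x : List Bool =>
      (List.range (p.eval x.length)).map fun i => (f x).testBit i) :=
    NPC.Poly.map (F := fun x i => (f x).testBit i) hrange htest'
  have hval : Poly (fun x : List Bool => f x) :=
    (NPC.Poly.valBits hlist).congr fun x => valB_testBit _ _ (hf x)
  exact PIso.poly_iff.1 (NPC.Poly.natBits hval)

end Pool.Agent.H334R5.Ct
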