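import Pool.Agent.H334R5.Ct.Stmts

/-!
# TASK LBval: the decision problem for the vector of values
-/

set_option autoImplicit false
set_option maxHeartbeats 4000000
set_option synthInstance.maxHeartbeats 400000

namespace Pool.Agent.H334R5.Ct

open Pool.Agent.NPC
open Pool.Agent.H334R5.Clo (num ext num_append num_lt)
open Pool.Agent.H334R5.Ps (upd extr pickz fix decv lc Mach)

namespace LBv

theorem fix_length (w v : ℕ) : (fix w v).length = w := by
  unfold fix
  rw [List.length_reverse, List.length_take, List.length_append, List.length_replicate]
  omega

theorem valB_rep (n : ℕ) : valB (List.replicate n false) = 0 := by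
  induction n with
  | zero => rfl
  | succ n ih =>
    rw [List.replicate_succ, valB_cons, ih]
    rfl

theorem num_fix (w v : ℕ) (h : v < 2 ^ w) : num (fix w v) = v := by
  unfold num fix
  rw [List.reverse_reverse]
  have h1 : v.bits.length ≤ w := by
    rw [Nat.size_eq_bits_len]
    exact Nat.size_le.mpr h
  rw [List.take_append, List.take_of_length_le h1, List.take_replicate, valB_append, valB_rep,
    valB_bits]
  simp

theorem flatMap_length_const {α β : Type} (f : α → List β) (w : ℕ) (h : ∀ a, (f a).length = w)
    (l : List α) : (l.flatMap f).length = l.length * w := by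
  induction l with
  | nil => simp
  | cons a l ih =>
    rw [List.flatMap_cons, List.length_append, ih, h, List.length_cons]
    ring

theorem num_flat (w : ℕ) (g : ℕ → ℕ) : ∀ N : ℕ, (∀ z < N, g z < 2 ^ w) →
    num (((List.range N).map g).flatMap (fix w)) =
      ((List.range N).map fun z => g z * 2 ^ (w * (N - 1 - z))).sum := by
  intro N
  induction N with
  | zero =>
    intro _
    rfl
  | succ N ih =>
    intro h
    have h1 := ih fun z hz => h z (by omega)
    rw [List.range_succ, List.map_append, List.flatMap_append, num_append, h1, List.map_append,
      List.sum_append]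
    simp only [List.map_cons, List.map_nil, List.flatMap_cons, List.flatMap_nil, List.append_nil,
      List.sum_cons, List.sum_nil, add_zero]
    rw [fix_length, num_fix w (g N) (h N (by omega)), ← List.sum_map_mul_left]
    have h2 : N + 1 - 1 - N = 0 := by omega
    rw [h2, mul_zero, pow_zero, mul_one]
    congr 2
    apply List.map_congr_left
    intro z hz
    rw [List.mem_range] at hz
    have h3 : N + 1 - 1 - z = (N - 1 - z) + 1 := by omega
    rw [h3, mul_add, mul_one, pow_add]
    ring

theorem W_num (c : Ctx) (h : ∀ y ∈ vec c, y < 2 ^ c.2.2.2.2.2.length) : num (W c) = SW c := by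
  unfold W SW vec
  rw [num_flat]
  intro z hz
  apply h
  unfold vec
  rw [List.mem_map]
  exact ⟨z, List.mem_range.mpr hz, rfl⟩

theorem W_length (c : Ctx) : (W c).length = c.2.2.2.2.1.length * c.2.2.2.2.2.length := by
  unfold W
  rw [flatMap_length_const _ c.2.2.2.2.2.length (fun v => fix_length _ v)]
  unfold vec
  rw [List.length_map, List.length_range]

end LBv

/-- **TASK LBval** -/
theorem taskLBval : TaskLBval := by
  intro c u hv hu
  unfold LB
  simp only
  rw [← LBv.W_num c hv, ← LBv.W_length c]
  rw [← LBv.W_length c] at hu
  have h1 := num_append ((W c).take u.length) ((W c).drop u.length)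
  rw [List.take_append_drop] at h1
  have h2 := num_lt ((W c).drop u.length)
  rw [List.length_drop] at h1 h2
  rw [h1]
  set T := num ((W c).take u.length) with hT
  set R := num ((W c).drop u.length) with hR
  set D := (W c).length - u.length with hD
  constructor
  · intro h
    by_contra hcon
    push Not at hcon
    have h3 : 2 ^ D * (T + 1) ≤ 2 ^ D * num u := Nat.mul_le_mul_left _ hcon
    rw [mul_comm (num u)] at h
    rw [mul_add, mul_one] at h3
    omega
  · intro h
    have h3 : 2 ^ D * num u ≤ 2 ^ D * T := Nat.mul_le_mul_left _ h
    rw [mul_comm (num u)]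
    omega

end Pool.Agent.H334R5.Ct
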