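import Pool.Agent.H334R5.Ct.Stmts
import Pool.Agent.H334R5.Ps.TaskPolyStep

/-!
# One step of the search runs in polynomial time (task TaskPolyStep)
-/

set_option autoImplicit false

namespace Pool.Agent.H334R5.Ct

open Pool.Agent.NPC
open Pool.Agent.H334R5.Clo (num ext poly_take poly_drop poly_ext)
open Pool.Agent.H334R5.Ps (upd extr pickz decv)
open Pool.Agent.H334R5.Ps.StepAux

namespace StepAux

variable {α : Type} [TEnc α]

theorem p_trans {Q M N w : α → ℕ} {js : α → List ℕ} {s : α → CSt} (hQ : Poly Q)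
    (hM : UPoly M) (hN : UPoly N) (hw : UPoly w) (hjs : Poly js) (hs : Poly s)
    (h1 : ∀ x, 1 ≤ Q x) :
    Poly (fun x => trans (Q x) (M x) (N x) (w x) (js x) (s x)) := by
  have hC : Poly (fun x => (s x).2.2.2.2.2) :=
    Poly.snd (Poly.snd (Poly.snd (Poly.snd (Poly.snd hs))))
  have hV : Poly (fun x => (s x).2.2.2.2.2.map (decv (Q x) (N x) (w x))) := by
    refine NPC.Poly.map (l := fun x => (s x).2.2.2.2.2) (F := fun x y => decv (Q x) (N x) (w x) y)
      hC ?_
    exact p_decv (hQ.comp (Poly.fst Poly.id)) (hN.comp (Poly.fst Poly.id))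
      (hw.toPoly.comp (Poly.fst Poly.id)) (Poly.snd Poly.id)
  have hp := p_pickz hQ hM hN hV h1
  have hu := u_pickz hQ hM hN hV h1
  have ho : Poly (fun x => (js x).getD (s x).1 0) :=
    Poly.getD hjs (Poly.fst hs) (NPC.Poly.const 0)
  have h0 : Poly (fun x => decide ((s x).1 = 0)) :=
    Poly.decide_eq (Poly.fst hs) (NPC.Poly.const 0)
  have g1 : Poly (fun q : α × List ℕ => q.1) := Poly.fst Poly.id
  have g2 : Poly (fun q : α × List ℕ => q.2) := Poly.snd Poly.id
  have hsum : Poly (fun q : α × List ℕ => q.2.getD 0 0 + q.2.getD 1 0) :=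
    Poly.add (Poly.getD g2 (NPC.Poly.const 0) (NPC.Poly.const 0))
      (Poly.getD g2 (NPC.Poly.const 1) (NPC.Poly.const 0))
  have hex : Poly (fun q : α × List ℕ => extr (Q q.1) q.2
      (pickz (Q q.1) (M q.1) (N q.1) ((s q.1).2.2.2.2.2.map (decv (Q q.1) (N q.1) (w q.1))))) :=
    p_extr (hQ.comp g1) g2 (hu.comp g1) (fun q => h1 _)
  unfold trans
  refine Poly.pair (Poly.succ (Poly.fst hs)) (Poly.pair (p_upd (Poly.fst (Poly.snd hs))
    ho hp) (Poly.pair ?_ (Poly.pair ?_ (Poly.pair (Poly.mul hN.toPoly hw.toPoly)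
    (NPC.Poly.const _)))))
  · refine Poly.ite h0 ?_ ?_
    · exact NPC.Poly.map (l := fun x => (s x).2.2.2.2.2.map (decv (Q x) (N x) (w x)))
        (F := fun x v => (extr (Q x) v (pickz (Q x) (M x) (N x)
          ((s x).2.2.2.2.2.map (decv (Q x) (N x) (w x)))), v.getD 0 0 + v.getD 1 0)) hV
        (Poly.pair hex hsum)
    · refine NPC.Poly.flatMap (l := fun x => (s x).2.2.2.2.2.map (decv (Q x) (N x) (w x)))
        (F := fun x v => (s x).2.2.2.1.flatMap (fun m =>
          if (v.getD 0 0 + v.getD 1 0, m) ∈ (s x).2.2.1 then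
            [(extr (Q x) v (pickz (Q x) (M x) (N x)
              ((s x).2.2.2.2.2.map (decv (Q x) (N x) (w x)))), m)] else [])) hV ?_
      refine NPC.Poly.flatMap (l := fun q : α × List ℕ => (s q.1).2.2.2.1)
        (F := fun (q : α × List ℕ) m =>
          if (q.2.getD 0 0 + q.2.getD 1 0, m) ∈ (s q.1).2.2.1 then
            [(extr (Q q.1) q.2 (pickz (Q q.1) (M q.1) (N q.1)
              ((s q.1).2.2.2.2.2.map (decv (Q q.1) (N q.1) (w q.1)))), m)] else [])
        (Poly.fst (Poly.snd (Poly.snd (Poly.snd (hs.comp g1))))) ?_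
      have f1 : Poly (fun r : (α × List ℕ) × ℕ => r.1) := Poly.fst Poly.id
      have f2 : Poly (fun r : (α × List ℕ) × ℕ => r.2) := Poly.snd Poly.id
      refine Poly.ite ?_ ?_ (NPC.Poly.const [])
      · exact Poly.dec_mem (Poly.pair (hsum.comp f1) f2)
          (Poly.fst (Poly.snd (Poly.snd (hs.comp (g1.comp f1)))))
      · exact Poly.cons (Poly.pair (hex.comp f1) f2) (NPC.Poly.const [])
  · refine Poly.ite h0 ?_ (Poly.fst (Poly.snd (Poly.snd (Poly.snd hs))))
    exact NPC.Poly.map (l := fun x => (s x).2.2.2.2.2.map (decv (Q x) (N x) (w x)))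
      (F := fun _ v => v.getD 0 0 + v.getD 1 0) hV hsum

end StepAux

theorem taskPolyStep : TaskPolyStep := by
  intro α _ Q M N w js s k hQ hM hN hw hjs hs hk h1
  unfold stepC
  have hC : Poly (fun x => (s x).2.2.2.2.2) :=
    Poly.snd (Poly.snd (Poly.snd (Poly.snd (Poly.snd hs))))
  refine Poly.ite (Poly.decide_le (Poly.length hjs) (Poly.fst hs)) hs ?_
  refine Poly.ite (Poly.decide_lt hM.toPoly (Poly.length hC)) ?_ ?_
  · have hm : Poly (fun x => min (k x) ((s x).2.2.2.2.2.length - 1)) :=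
      Poly.min hk (Poly.sub (Poly.length hC) (NPC.Poly.const 1))
    refine Poly.pair (Poly.fst hs) (Poly.pair (Poly.fst (Poly.snd hs)) (Poly.pair
      (Poly.fst (Poly.snd (Poly.snd hs))) (Poly.pair
        (Poly.fst (Poly.snd (Poly.snd (Poly.snd hs)))) (Poly.pair
          (Poly.fst (Poly.snd (Poly.snd (Poly.snd (Poly.snd hs))))) ?_))))
    exact Poly.append (poly_take hC hm) (poly_drop hC (Poly.succ hm))
  · refine Poly.ite (Poly.decide_eq (Poly.fst (Poly.snd (Poly.snd (Poly.snd (Poly.snd hs)))))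
      (NPC.Poly.const 0)) (StepAux.p_trans hQ hM hN hw hjs hs h1) ?_
    exact Poly.pair (Poly.fst hs) (Poly.pair (Poly.fst (Poly.snd hs)) (Poly.pair
      (Poly.fst (Poly.snd (Poly.snd hs))) (Poly.pair
        (Poly.fst (Poly.snd (Poly.snd (Poly.snd hs)))) (Poly.pair
          (Poly.sub (Poly.fst (Poly.snd (Poly.snd (Poly.snd (Poly.snd hs)))))
            (NPC.Poly.const 1))
          (poly_ext hC)))))

end Pool.Agent.H334R5.Ct
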