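import Pool.Agent.H334R5.Ct.Stmts

/-!
# Task PolyVal: the value of a formula is computable in polynomial time
-/

set_option autoImplicit false

namespace Pool.Agent.H334R5.Ct

open Pool.Agent.NPC
open Pool.Agent.H334R5.Ps (lc)

section PV

variable {α : Type} [TEnc α]

theorem pv_getD_le (a : List ℕ) (i : ℕ) : a.getD i 0 ≤ 2 ^ sz a := by
  rcases Nat.lt_or_ge i a.length with h | h
  · rw [List.getD_eq_getElem _ _ h]
    have h1 := Nat.lt_size_self a[i]
    have h2 := size_le_sz a[i]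
    have h3 := sz_le_of_mem (List.getElem_mem h)
    exact h1.le.trans (Nat.pow_le_pow_right (by norm_num) (by omega))
  · rw [List.getD_eq_default _ _ h]; exact Nat.zero_le _

theorem pv_lt_le (b : Bool) (a : List ℕ) (i : ℕ) : lt b (a.getD i 0) ≤ 2 ^ (2 * sz a) := by
  have h1 := pv_getD_le a i
  have h2 : 1 ≤ 2 ^ sz a := Nat.one_le_two_pow
  have h3 : 2 ^ (2 * sz a) = 2 ^ sz a * 2 ^ sz a := by rw [two_mul, pow_add]
  rw [h3]
  unfold lt
  split_ifs
  · nlinarith
  · nlinarith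
  · exact Nat.mul_le_mul (by omega) (by omega)

theorem pv_cls_le (a : List ℕ) : ∀ c : List (Bool × ℕ),
    cls a c ≤ 2 ^ ((2 * sz a + 1) * c.length) := by
  intro c
  induction c with
  | nil => simp [cls]
  | cons l c ih =>
    have h1 := pv_lt_le l.1 a l.2
    have h2 := pv_lt_le (!l.1) a l.2
    have h3 : 1 ≤ 2 ^ ((2 * sz a + 1) * c.length) := Nat.one_le_two_pow
    have h4 : 2 ^ ((2 * sz a + 1) * (l :: c).length) =
        2 ^ (2 * sz a) * 2 * 2 ^ ((2 * sz a + 1) * c.length) := by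
      rw [List.length_cons, Nat.mul_add, Nat.mul_one, pow_add, pow_succ]
      ring
    have h5 : cls a (l :: c) = lt l.1 (a.getD l.2 0) + lt (!l.1) (a.getD l.2 0) * cls a c := rfl
    rw [h4, h5]
    have h6 := Nat.mul_le_mul h2 ih
    have h7 : lt l.1 (a.getD l.2 0) ≤ 2 ^ (2 * sz a) * 2 ^ ((2 * sz a + 1) * c.length) := by
      nlinarith
    nlinarith

theorem pv_mat_le (a : List ℕ) : ∀ C : List (List (Bool × ℕ)),
    mat C a ≤ 2 ^ ((2 * sz a + 1) * lc C) := by
  intro C
  induction C with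
  | nil => exact Nat.one_le_two_pow
  | cons c C ih =>
    have h1 := pv_cls_le a c
    have h4 : 2 ^ ((2 * sz a + 1) * lc (c :: C)) =
        2 ^ ((2 * sz a + 1) * c.length) * 2 ^ ((2 * sz a + 1) * lc C) := by
      rw [← pow_add, ← Nat.mul_add]
      simp [lc]
    have h5 : mat (c :: C) a = cls a c * mat C a := rfl
    rw [h4, h5]
    exact Nat.mul_le_mul h1 ih

theorem pv_lc_le : ∀ C : List (List (Bool × ℕ)), lc C ≤ sz C := by
  intro C
  induction C with
  | nil => simp [lc]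
  | cons c C ih =>
    have h1 := length_lt_sz c
    have h2 : lc (c :: C) = c.length + lc C := by simp [lc]
    rw [h2, sz_list_cons]
    omega

theorem pv_sz_le {v k : ℕ} (h : v ≤ 2 ^ k) : sz v ≤ 4 * k + 5 := by
  have h1 : v.size ≤ k + 1 :=
    Nat.size_le.2 (lt_of_le_of_lt h (Nat.pow_lt_pow_right (by norm_num) (Nat.lt_succ_self k)))
  have h2 := sz_nat_le v
  omega

theorem pv_lt {b : α → Bool} {x : α → ℕ} (hb : NPC.Poly b) (hx : NPC.Poly x) :
    NPC.Poly (fun t => lt (b t) (x t)) := by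
  unfold lt
  exact NPC.Poly.ite (NPC.Poly.decide_bool hb) hx
    (NPC.Poly.ite (NPC.Poly.decide_eq hx (NPC.Poly.const 0)) (NPC.Poly.const 1)
      (NPC.Poly.mul (NPC.Poly.sub hx (NPC.Poly.const 1)) (NPC.Poly.sub hx (NPC.Poly.const 1))))

theorem pv_cls {a : α → List ℕ} {c : α → List (Bool × ℕ)} (ha : NPC.Poly a)
    (hc : NPC.Poly c) : NPC.Poly (fun t => cls (a t) (c t)) := by
  obtain ⟨ra, hra⟩ := ha.sz_le
  obtain ⟨rc, hrc⟩ := hc.sz_le
  have hF : NPC.Poly (fun p : α × (Bool × ℕ) × ℕ => lt p.2.1.1 ((a p.1).getD p.2.1.2 0) +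
      lt (!p.2.1.1) ((a p.1).getD p.2.1.2 0) * p.2.2) := by
    have ha' : NPC.Poly (fun p : α × (Bool × ℕ) × ℕ => (a p.1).getD p.2.1.2 0) :=
      NPC.Poly.getD (d := fun _ => 0) (NPC.Poly.comp ha (NPC.Poly.fst NPC.Poly.id))
        (NPC.Poly.snd (NPC.Poly.fst (NPC.Poly.snd NPC.Poly.id))) (NPC.Poly.const 0)
    have hb : NPC.Poly (fun p : α × (Bool × ℕ) × ℕ => p.2.1.1) :=
      NPC.Poly.fst (NPC.Poly.fst (NPC.Poly.snd NPC.Poly.id))
    have h1 := pv_lt hb ha'
    have h2 := pv_lt (NPC.Poly.not hb) ha'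
    have h3 : NPC.Poly (fun p : α × (Bool × ℕ) × ℕ => p.2.2) :=
      NPC.Poly.snd (NPC.Poly.snd NPC.Poly.id)
    exact NPC.Poly.add h1 (NPC.Poly.mul h2 h3)
  have key := NPC.Poly.foldr (l := c) (s := fun _ => 0) (F := fun t l v =>
      lt l.1 ((a t).getD l.2 0) + lt (!l.1) ((a t).getD l.2 0) * v) hc (NPC.Poly.const 0) hF
    (Polynomial.C 4 * ((Polynomial.C 2 * ra + Polynomial.C 1) * rc) + Polynomial.C 5) ?_
  · exact key
  · intro t k _
    have h1 := pv_cls_le (a t) ((c t).drop k)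
    have h2 : ((c t).drop k).length ≤ sz (c t) := by
      have := length_lt_sz (c t)
      rw [List.length_drop]
      omega
    have h3 := pv_sz_le h1
    have h4 : (2 * sz (a t) + 1) * ((c t).drop k).length ≤
        (2 * ra.eval (sz t) + 1) * rc.eval (sz t) := by
      have := hra t
      have := hrc t
      exact Nat.mul_le_mul (by omega) (by omega)
    simp only [Polynomial.eval_add, Polynomial.eval_mul, Polynomial.eval_C]
    have h5 : 4 * ((2 * sz (a t) + 1) * ((c t).drop k).length) + 5 ≤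
        4 * ((2 * ra.eval (sz t) + 1) * rc.eval (sz t)) + 5 := by omega
    exact h3.trans h5

theorem pv_mat {C : α → List (List (Bool × ℕ))} {a : α → List ℕ}
    (hC : NPC.Poly C) (ha : NPC.Poly a) : NPC.Poly (fun t => mat (C t) (a t)) := by
  obtain ⟨ra, hra⟩ := ha.sz_le
  obtain ⟨rc, hrc⟩ := hC.sz_le
  unfold mat
  refine NPC.Poly.foldr (F := fun t c v => cls (a t) c * v) hC (NPC.Poly.const 1) ?_
    (Polynomial.C 4 * ((Polynomial.C 2 * ra + Polynomial.C 1) * rc) + Polynomial.C 5) ?_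
  · exact NPC.Poly.mul (pv_cls (NPC.Poly.comp ha (NPC.Poly.fst NPC.Poly.id))
      (NPC.Poly.fst (NPC.Poly.snd NPC.Poly.id))) (NPC.Poly.snd (NPC.Poly.snd NPC.Poly.id))
  · intro t k _
    have h1 := pv_mat_le (a t) ((C t).drop k)
    have h2 : lc ((C t).drop k) ≤ sz (C t) := (pv_lc_le _).trans (Poly.sz_drop_le _ _)
    have h3 := pv_sz_le h1
    have h4 : (2 * sz (a t) + 1) * lc ((C t).drop k) ≤
        (2 * ra.eval (sz t) + 1) * rc.eval (sz t) := by
      have := hra t
      have := hrc t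
      exact Nat.mul_le_mul (by omega) (by omega)
    simp only [Polynomial.eval_add, Polynomial.eval_mul, Polynomial.eval_C]
    exact h3.trans (by omega)

end PV

/-- Task PolyVal. -/
theorem taskPolyVal : TaskPolyVal := by
  intro α _ C a hC ha
  exact pv_mat hC ha

end Pool.Agent.H334R5.Ct
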