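import Pool.Agent.H334R5.Ct.Stmts
import Pool.Agent.H334R5.Ps.TaskLB
import Pool.Agent.H671R2.PolyAuto
import Pool.Agent.H527R2.SharpP

/-!
# TASK Sharp: the vector of values is (up to one) a function in #P
-/

set_option autoImplicit false

namespace Pool.Agent.H334R5.Ct

open Pool.Agent.NPC
open Pool.Agent.NPC.Cnt (SharpP FP)
open Pool.Agent.H334R5.Clo (num ext)
open Pool.Agent.H334R5.Ps (upd extr pickz fix decv lc Mach asg)

namespace Shx

/-- The variables as operations. -/
def ops (js : List ℕ) : List (ℕ × ℕ) := js.map fun j => (0, j)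

/-- The weight of a point and choices. -/
def mm (c : Ctx) (z : ℕ) (p : List Bool) : ℕ :=
  mat c.1 (asg (ops c.2.1) (upd c.2.2.1 c.2.2.2.1 z) p) *
    2 ^ (c.2.2.2.2.2.length * (c.2.2.2.2.1.length - 1 - z))

/-- The counted objects. -/
def R (c : Ctx) (g : ℕ × List Bool × ℕ) : Bool :=
  (decide (g.1 < c.2.2.2.2.1.length) && (decide (g.2.1.length = c.2.1.length) &&
    decide (g.2.2 < mm c g.1 g.2.1))) ||
  (decide (g.1 = c.2.2.2.2.1.length) && (decide (g.2.1 = []) && decide (g.2.2 = 0)))

theorem asg_nil (a : List ℕ) (p : List Bool) : asg (ops []) a p = a := by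
  unfold asg ops
  simp

theorem asg_cons (j : ℕ) (js a : List ℕ) (b : Bool) (p : List Bool) :
    asg (ops (j :: js)) a (b :: p) = asg (ops js) (upd a j (if b = true then 1 else 0)) p := rfl

theorem card_paths (C : List (List (Bool × ℕ))) (B : ℕ) : ∀ (js a : List ℕ),
    Finite {q : List Bool × ℕ // q.1.length = js.length ∧
      q.2 < mat C (asg (ops js) a q.1) * B} ∧
    Nat.card {q : List Bool × ℕ // q.1.length = js.length ∧
      q.2 < mat C (asg (ops js) a q.1) * B} = val C js a * B := by
  intro js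
  induction js with
  | nil =>
    intro a
    have hb : Function.Bijective (fun i : Fin (mat C a * B) =>
        (⟨(([] : List Bool), i.1), rfl, by rw [asg_nil]; exact i.2⟩ :
          {q : List Bool × ℕ // q.1.length = ([] : List ℕ).length ∧
            q.2 < mat C (asg (ops []) a q.1) * B})) := by
      constructor
      · intro i i' h
        have h1 := congrArg (fun q => q.1.2) h
        exact Fin.ext h1
      · rintro ⟨⟨p, y⟩, hp, hy⟩
        have hp' : p = [] := List.length_eq_zero_iff.1 hp
        subst hp'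
        have hy' : y < mat C a * B := by
          rw [asg_nil] at hy
          exact hy
        exact ⟨⟨y, hy'⟩, rfl⟩
    refine ⟨Finite.of_surjective _ hb.2, ?_⟩
    rw [← Nat.card_congr (Equiv.ofBijective _ hb), Nat.card_eq_fintype_card, Fintype.card_fin]
    rfl
  | cons j js ih =>
    intro a
    obtain ⟨f1, c1⟩ := ih (upd a j 1)
    obtain ⟨f0, c0⟩ := ih (upd a j 0)
    have hb : Function.Bijective (fun s : {q : List Bool × ℕ // q.1.length = js.length ∧
        q.2 < mat C (asg (ops js) (upd a j 1) q.1) * B} ⊕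
        {q : List Bool × ℕ // q.1.length = js.length ∧
        q.2 < mat C (asg (ops js) (upd a j 0) q.1) * B} =>
        (Sum.elim (fun q => ⟨(true :: q.1.1, q.1.2), by simp [q.2.1], by
            rw [asg_cons]; exact q.2.2⟩)
          (fun q => ⟨(false :: q.1.1, q.1.2), by simp [q.2.1], by
            rw [asg_cons]; exact q.2.2⟩) s :
          {q : List Bool × ℕ // q.1.length = (j :: js).length ∧
            q.2 < mat C (asg (ops (j :: js)) a q.1) * B})) := by
      constructor
      · rintro (⟨⟨p, y⟩, hp⟩ | ⟨⟨p, y⟩, hp⟩) (⟨⟨p', y'⟩, hp'⟩ | ⟨⟨p', y'⟩, hp'⟩) h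
        · simp only [Sum.elim_inl, Subtype.mk.injEq, Prod.mk.injEq, List.cons.injEq,
            true_and] at h
          obtain ⟨rfl, rfl⟩ := h
          rfl
        · simp at h
        · simp at h
        · simp only [Sum.elim_inr, Subtype.mk.injEq, Prod.mk.injEq, List.cons.injEq,
            true_and] at h
          obtain ⟨rfl, rfl⟩ := h
          rfl
      · rintro ⟨⟨p, y⟩, hp, hy⟩
        cases p with
        | nil => simp at hp
        | cons b p =>
          have hp' : p.length = js.length := by simpa using hp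
          cases b with
          | true => exact ⟨Sum.inl ⟨(p, y), hp', hy⟩, rfl⟩
          | false => exact ⟨Sum.inr ⟨(p, y), hp', hy⟩, rfl⟩
    refine ⟨Finite.of_surjective _ hb.2, ?_⟩
    rw [← Nat.card_congr (Equiv.ofBijective _ hb), Nat.card_sum, c1, c0]
    change _ = (val C js (upd a j 0) + val C js (upd a j 1)) * B
    ring

theorem card_points (N : ℕ) (P : ℕ → List Bool × ℕ → Prop) (f : ℕ → ℕ)
    (h : ∀ z < N, Finite {q // P z q} ∧ Nat.card {q // P z q} = f z) :
    Finite {g : ℕ × List Bool × ℕ // g.1 < N ∧ P g.1 g.2} ∧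
      Nat.card {g : ℕ × List Bool × ℕ // g.1 < N ∧ P g.1 g.2} = ((List.range N).map f).sum := by
  have hb : Function.Bijective (fun s : (z : Fin N) × {q // P z.1 q} =>
      (⟨(s.1.1, s.2.1), s.1.2, s.2.2⟩ : {g : ℕ × List Bool × ℕ // g.1 < N ∧ P g.1 g.2})) := by
    constructor
    · rintro ⟨⟨z, hz⟩, ⟨q, hq⟩⟩ ⟨⟨z', hz'⟩, ⟨q', hq'⟩⟩ h
      simp only [Subtype.mk.injEq, Prod.mk.injEq] at h
      obtain ⟨rfl, rfl⟩ := h
      rfl
    · rintro ⟨⟨z, q⟩, hz, hq⟩
      exact ⟨⟨⟨z, hz⟩, ⟨q, hq⟩⟩, rfl⟩
  haveI : ∀ z : Fin N, Finite {q // P z.1 q} := fun z => (h z.1 z.2).1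
  refine ⟨Finite.of_surjective _ hb.2, ?_⟩
  rw [← Nat.card_congr (Equiv.ofBijective _ hb), Nat.card_sigma]
  have h1 : ∑ z : Fin N, Nat.card {q // P z.1 q} = ∑ z : Fin N, f z.1 :=
    Finset.sum_congr rfl fun z _ => (h z.1 z.2).2
  rw [h1, ← Finset.sum_range]
  clear h1 hb this h
  induction N with
  | zero => simp
  | succ n ih => rw [Finset.sum_range_succ, ih, List.sum_range_succ]

theorem card_R (c : Ctx) : Nat.card {g : ℕ × List Bool × ℕ // R c g = true} = SW c + 1 := by
  have hpts := card_points c.2.2.2.2.1.length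
    (fun z q => q.1.length = c.2.1.length ∧ q.2 < mm c z q.1)
    (fun z => val c.1 c.2.1 (upd c.2.2.1 c.2.2.2.1 z) *
      2 ^ (c.2.2.2.2.2.length * (c.2.2.2.2.1.length - 1 - z)))
    (fun z _ => card_paths c.1 _ c.2.1 _)
  obtain ⟨hfin, hcard⟩ := hpts
  have hb : Function.Bijective (fun o : Option {g : ℕ × List Bool × ℕ //
      g.1 < c.2.2.2.2.1.length ∧ (g.2.1.length = c.2.1.length ∧ g.2.2 < mm c g.1 g.2.1)} =>
      (o.elim ⟨(c.2.2.2.2.1.length, [], 0), by simp [R]⟩ (fun g => ⟨g.1, by
        have h1 := g.2.1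
        have h2 := g.2.2.1
        have h3 := g.2.2.2
        simp [R, h1, h2, h3]⟩) : {g : ℕ × List Bool × ℕ // R c g = true})) := by
    constructor
    · rintro (_ | ⟨g, hg⟩) (_ | ⟨g', hg'⟩) h
      · rfl
      · simp only [Option.elim_none, Option.elim_some, Subtype.mk.injEq] at h
        rw [← h] at hg'
        exact absurd hg'.1 (lt_irrefl _)
      · simp only [Option.elim_none, Option.elim_some, Subtype.mk.injEq] at h
        rw [h] at hg
        exact absurd hg.1 (lt_irrefl _)
      · simp only [Option.elim_some, Subtype.mk.injEq] at h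
        subst h
        rfl
    · rintro ⟨⟨z, p, y⟩, hg⟩
      have hg' := hg
      unfold R at hg'
      simp only [Bool.or_eq_true, Bool.and_eq_true, decide_eq_true_eq] at hg'
      rcases hg' with hg' | ⟨h1, h2, h3⟩
      · exact ⟨some ⟨(z, p, y), hg'⟩, rfl⟩
      · subst h1 h2 h3
        exact ⟨none, rfl⟩
  rw [← Nat.card_congr (Equiv.ofBijective _ hb), Finite.card_option, hcard]
  rfl

section PolyPart

variable {α : Type} [TEnc α]

theorem poly_mm (hPV : TaskPolyVal) {c : α → Ctx} {z : α → ℕ} {p : α → List Bool} (hc : Poly c)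
    (hz : Poly z) (hp : Poly p) : Poly (fun x => mm (c x) (z x) (p x)) := by
  unfold mm
  have h0 : Poly (fun x => ops (c x).2.1) := by
    unfold ops
    fun_prop
  have h1 : Poly (fun x => mat (c x).1 (asg (ops (c x).2.1)
      (upd (c x).2.2.1 (c x).2.2.2.1 (z x)) (p x))) := by
    refine hPV α inferInstance _ _ (by fun_prop) ?_
    exact Ps.LBx.poly_asg h0 (Ps.LBx.poly_upd (by fun_prop) (by fun_prop) hz) hp
  have h2 : UPoly (fun x => (c x).2.2.2.2.2.length * ((c x).2.2.2.2.1.length - 1 - z x)) := by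
    refine UPoly.of_le (n := fun x => (c x).2.2.2.2.2.length * (c x).2.2.2.2.1.length)
      (by fun_prop) (UPoly.mul (UPoly.length (by fun_prop)) (UPoly.length (by fun_prop))) ?_
    intro x
    exact Nat.mul_le_mul_left _ (by omega)
  exact Poly.mul h1 (Med.poly_two_pow h2)

theorem poly_R (hPV : TaskPolyVal) : Poly (fun x : Ctx × (ℕ × List Bool × ℕ) => R x.1 x.2) := by
  have h1 : Poly (fun x : Ctx × (ℕ × List Bool × ℕ) => mm x.1 x.2.1 x.2.2.1) :=
    poly_mm hPV (by fun_prop) (by fun_prop) (by fun_prop)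
  unfold R
  fun_prop

end PolyPart

end Shx

open Shx

/-- TASK Sharp (from TASK PolyVal). -/
theorem taskSharp_of (hPV : TaskPolyVal) : TaskSharp := by
  obtain ⟨r, hr⟩ := (poly_mm hPV (c := fun x : Ctx × ℕ × List Bool => x.1)
    (z := fun x => x.2.1) (p := fun x => x.2.2) (by fun_prop) (by fun_prop)
    (by fun_prop)).sz_le
  refine ⟨Cnt.strFn fun c : Ctx => Nat.card {g : ℕ × List Bool × ℕ // R c g = true},
    Cnt.sharpP_typed R (poly_R hPV)
      (Polynomial.C 2 * r.comp (Polynomial.C 9 * Polynomial.X + Polynomial.C 4) +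
        Polynomial.C 8 * Polynomial.X + Polynomial.C 10) ?_, ?_⟩
  · rintro c ⟨z, p, y⟩ h
    have hN : c.2.2.2.2.1.length ≤ sz c := by
      obtain ⟨C, js, a, j, N, w⟩ := c
      have := length_lt_sz N
      simp only [sz_pair]
      omega
    have hJ : c.2.1.length ≤ sz c := by
      obtain ⟨C, js, a, j, N, w⟩ := c
      have := length_lt_sz js
      simp only [sz_pair]
      omega
    have hsz : ∀ n : ℕ, sz n ≤ 4 * n + 1 := by
      intro n
      have h1 := sz_nat_le n
      have h2 : n.size ≤ n := by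
        rw [Nat.size_le]
        exact Nat.lt_two_pow_self
      omega
    simp only [Polynomial.eval_add, Polynomial.eval_mul, Polynomial.eval_C, Polynomial.eval_X,
      Polynomial.eval_comp, sz_pair]
    unfold R at h
    simp only [Bool.or_eq_true, Bool.and_eq_true, decide_eq_true_eq] at h
    rcases h with ⟨h1, h2, h3⟩ | ⟨h1, h2, h3⟩
    · have hz := hsz z
      have hp := sz_listBool_le p
      have hy := sz_nat_mono_le h3.le
      have hm := hr (c, z, p)
      have he := eval_mono r (m := sz ((c, z, p) : Ctx × ℕ × List Bool))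
        (n := 9 * sz c + 4) (by simp only [sz_pair]; omega)
      simp only at hm
      omega
    · subst h1 h2 h3
      have hz := hsz c.2.2.2.2.1.length
      have h0 := hsz 0
      simp only [sz_list_nil]
      omega
  · refine reduces_lang (f := fun t : Ctx × List Bool => ((bits t.1,
      num t.2 * 2 ^ (t.1.2.2.2.2.1.length * t.1.2.2.2.2.2.length - t.2.length)) :
        List Bool × ℕ)) ?_ ?_
    · have h1 : Poly (fun t : Ctx × List Bool =>
          2 ^ (t.1.2.2.2.2.1.length * t.1.2.2.2.2.2.length - t.2.length)) := by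
        refine Med.poly_two_pow ?_
        refine UPoly.of_le (n := fun t : Ctx × List Bool =>
          t.1.2.2.2.2.1.length * t.1.2.2.2.2.2.length) (by fun_prop)
          (UPoly.mul (UPoly.length (by fun_prop)) (UPoly.length (by fun_prop))) ?_
        intro t
        exact Nat.sub_le _ _
      have h2 : Poly (fun t : Ctx × List Bool => bits t.1) :=
        Med.poly_bits.comp (Poly.fst Poly.id)
      have h3 : Poly (fun t : Ctx × List Bool => num t.2) :=
        Ps.LBx.poly_num (by fun_prop)
      exact Poly.pair h2 (Poly.mul h3 h1)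
    · intro t
      unfold LB
      change _ ↔ num t.2 * _ < Cnt.strFn _ (bits t.1)
      rw [Cnt.strFn_bits, card_R, Nat.lt_succ_iff]

end Pool.Agent.H334R5.Ct
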