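import Pool.Agent.H334R5.Ct.Stmts
import Pool.Agent.H334R5.Ps.TaskTrans

set_option autoImplicit false

namespace Pool.Agent.H334R5.Ct

open Pool.Agent.NPC
open Pool.Agent.H334R5.Clo (num)
open Pool.Agent.H334R5.Ps (upd extr pickz fix decv lc)
open Pool.Agent.H334R5.Ps.TransAux (fix_length num_fix block decv_length pickz_spec)

namespace TransAux

theorem decv_eq {Q N w : ℕ} (v : List ℕ) (hv : v.length = N)
    (hb : ∀ y ∈ v, y < 2 ^ w) (hQ : 2 ^ w ≤ Q) : decv Q N w (v.flatMap (fix w)) = v := by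
  unfold decv
  apply List.ext_getElem
  · simp [hv]
  · intro i h1 h2
    have hlt : v[i] < 2 ^ w := hb _ (List.getElem_mem h2)
    rw [List.getElem_map, List.getElem_range, block (fix w) (fix_length w) v i h2,
      List.getD_eq_getElem _ _ h2, num_fix hlt, Nat.mod_eq_of_lt (lt_of_lt_of_le hlt hQ)]

theorem valB_lt (l : List Bool) : valB l < 2 ^ l.length := by
  induction l with
  | nil => simp [valB]
  | cons b l ih =>
    rw [valB_cons, List.length_cons, pow_succ]
    cases b <;> simp <;> omega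

theorem num_lt (l : List Bool) : num l < 2 ^ l.length := by
  unfold num
  have := valB_lt l.reverse
  rwa [List.length_reverse] at this

theorem decv_lt {Q N w : ℕ} (y : List Bool) : ∀ x ∈ decv Q N w y, x < 2 ^ w := by
  intro x hx
  unfold decv at hx
  obtain ⟨i, _, rfl⟩ := List.mem_map.1 hx
  refine lt_of_le_of_lt (Nat.mod_le _ _) (lt_of_lt_of_le (num_lt _) ?_)
  apply Nat.pow_le_pow_right (by norm_num)
  rw [List.length_take]
  exact min_le_left _ _

theorem pickz_le {Q M N : ℕ} (V : List (List ℕ)) : pickz Q M N V ≤ M * M * N := by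
  unfold pickz
  cases hl : (List.range (M * M * N + 1)).filter (fun z => V.all fun v => V.all fun v' =>
      decide (v = v') || !decide (extr Q v z = extr Q v' z)) with
  | nil => simp
  | cons z0 l =>
    have h0 : z0 ∈ (List.range (M * M * N + 1)).filter (fun z => V.all fun v => V.all fun v' =>
      decide (v = v') || !decide (extr Q v z = extr Q v' z)) := by rw [hl]; simp
    rw [List.mem_filter, List.mem_range] at h0
    simp only [List.head?_cons, Option.getD_some]
    omega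

theorem upd_le {a : List ℕ} {j z A : ℕ} (ha : ∀ y ∈ a, y ≤ A) (hz : z ≤ A) :
    ∀ y ∈ upd a j z, y ≤ A := by
  intro y hy
  unfold upd at hy
  obtain ⟨i, hi, rfl⟩ := List.mem_map.1 hy
  rw [List.mem_range] at hi
  by_cases h : i = j
  · simpa [h] using hz
  · simp only [h, if_false]
    rw [List.getD_eq_getElem _ _ hi]
    exact ha _ (List.getElem_mem hi)

end TransAux

open TransAux

/-- TASK Trans. -/
theorem taskTrans : TaskTrans := by
  intro hdeg hex1 hex2 hbd Q M N w js C m₀ s hN hQ hw hM1 ht ha hM hlen hW hJ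
  obtain ⟨t, a, L, K, m, cands⟩ := s
  simp only at ht ha hM hlen hW
  have hN1 : 1 ≤ N := by omega
  have hA : N ≤ M * M * N := Nat.le_mul_of_pos_left _ (Nat.mul_pos hM1 hM1)
  have hA1 : 1 ≤ M * M * N := le_trans hN1 hA
  have hwQ : 2 ^ w ≤ Q := by
    refine le_trans ?_ hQ.le
    have h1 : 2 ^ w ≤ 2 ^ N * 2 ^ w * (M * M * N + 1) ^ N := by
      calc 2 ^ w = 1 * 2 ^ w * 1 := by ring
        _ ≤ 2 ^ N * 2 ^ w * (M * M * N + 1) ^ N :=
          Nat.mul_le_mul (Nat.mul_le_mul Nat.one_le_two_pow le_rfl)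
            (Nat.one_le_pow _ _ (Nat.succ_pos _))
    calc 2 ^ w ≤ 2 ^ N * 2 ^ w * (M * M * N + 1) ^ N := h1
      _ ≤ N * (2 ^ N * 2 ^ w * (M * M * N + 1) ^ N) := Nat.le_mul_of_pos_left _ hN1
      _ ≤ 2 * (N * (2 ^ N * 2 ^ w * (M * M * N + 1) ^ N)) := Nat.le_mul_of_pos_left _ (by norm_num)
  have hQ0 : 0 < Q := lt_of_lt_of_le (Nat.two_pow_pos w) hwQ
  obtain ⟨o, ho⟩ : ∃ o, o = js.getD t 0 := ⟨_, rfl⟩
  obtain ⟨g, hg1, hg2⟩ := hdeg C (js.drop (t + 1)) a o
  have hdrop : js.drop t = o :: js.drop (t + 1) := by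
    rw [ho, List.getD_eq_getElem _ _ ht]
    exact List.drop_eq_getElem_cons ht
  -- all values are small
  have hsmall : ∀ z, z ≤ M * M * N → val C (js.drop (t + 1)) (upd a o z) < 2 ^ w := by
    intro z hz
    refine lt_of_le_of_lt (hbd C _ _ (M * M * N) hA1 (upd_le ha hz)) (lt_of_le_of_lt ?_ hw)
    apply Nat.mul_le_mul_right
    apply Nat.pow_le_pow_right (by norm_num)
    rw [List.length_drop]
    omega
  obtain ⟨vc, hvc⟩ : ∃ vc, vc = vec (ctxOf N w C js (t, a, L, K, m, cands)) := ⟨_, rfl⟩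
  have hvc' : vc = (List.range N).map fun z => val C (js.drop (t + 1)) (upd a o z) := by
    rw [hvc]
    unfold vec ctxOf
    simp only [List.length_replicate]
    rw [ho]
  have hvlen : vc.length = N := by rw [hvc']; simp
  have hvget : ∀ i, i < N → vc.getD i 0 = val C (js.drop (t + 1)) (upd a o i) := by
    intro i hi
    rw [List.getD_eq_getElem _ _ (by rw [hvlen]; exact hi)]
    simp [hvc']
  have hvlt : ∀ y ∈ vc, y < 2 ^ w := by
    intro y hy
    rw [hvc'] at hy
    obtain ⟨z, hz, rfl⟩ := List.mem_map.1 hy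
    rw [List.mem_range] at hz
    exact hsmall z (le_trans hz.le hA)
  have hWv : W (ctxOf N w C js (t, a, L, K, m, cands)) = vc.flatMap (fix w) := by
    rw [hvc]
    unfold W ctxOf
    simp only [List.length_replicate]
  obtain ⟨V, hV⟩ : ∃ V, V = cands.map (decv Q N w) := ⟨_, rfl⟩
  have hvV : vc ∈ V := by
    rw [hV, List.mem_map]
    exact ⟨_, hW, by rw [hWv]; exact decv_eq vc hvlen hvlt hwQ⟩
  have hsep := pickz_spec (hex2 Q N M w V hN1 hQ (by rw [hV]; simpa using hM) (by
    intro v hv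
    rw [hV, List.mem_map] at hv
    obtain ⟨y, _, rfl⟩ := hv
    exact ⟨decv_length y, decv_lt y⟩))
  -- extrapolation
  have hext : ∀ z, z ≤ M * M * N → extr Q vc z = val C (js.drop (t + 1)) (upd a o z) := by
    intro z hz
    have h1 := hex1 Q vc g hQ0 (by rw [hvlen]; omega) (by
      intro i hi
      rw [hvlen] at hi
      rw [hvget i hi, ← hg2 i]
      simp) z
    rw [← hg2 z, Int.cast_natCast] at h1
    have h2 := (ZMod.natCast_eq_natCast_iff' _ _ _).1 h1
    rwa [Nat.mod_eq_of_lt (show extr Q vc z < Q from Nat.mod_lt _ hQ0),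
      Nat.mod_eq_of_lt (lt_of_lt_of_le (hsmall z hz) hwQ)] at h2
  have hval : val C (js.drop t) a = vc.getD 0 0 + vc.getD 1 0 := by
    rw [hdrop, hvget 0 (by omega), hvget 1 (by omega)]
    rfl
  obtain ⟨z0, hz0⟩ : ∃ z0, z0 = pickz Q M N V := ⟨_, rfl⟩
  rw [← hz0] at hsep
  have hz0le : z0 ≤ M * M * N := by rw [hz0]; exact pickz_le V
  have htr : trans Q M N w js (t, a, L, K, m, cands) = (t + 1, upd a o z0,
      (if t = 0 then V.map (fun v => (extr Q v z0, v.getD 0 0 + v.getD 1 0))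
        else V.flatMap (fun v => K.flatMap (fun m =>
          if (v.getD 0 0 + v.getD 1 0, m) ∈ L then [(extr Q v z0, m)] else []))),
      (if t = 0 then V.map (fun v => v.getD 0 0 + v.getD 1 0) else K), N * w, [[]]) := by
    rw [hz0, hV, ho]
    rfl
  rw [htr]
  unfold JJ at hJ ⊢
  simp only at hJ ⊢
  rw [if_neg (Nat.succ_ne_zero t), ← hext z0 hz0le]
  by_cases h0 : t = 0
  · rw [if_pos h0] at hJ ⊢
    rw [if_pos h0]
    have hm : m₀ = vc.getD 0 0 + vc.getD 1 0 := by
      rw [← hval, ← hJ, h0, List.drop_zero]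
    refine ⟨⟨?_, ?_⟩, ?_⟩
    · exact List.mem_map.2 ⟨vc, hvV, by rw [hm]⟩
    · exact List.mem_map.2 ⟨vc, hvV, hm.symm⟩
    · intro v1 m1 hmem heq
      obtain ⟨v, hvm, he⟩ := List.mem_map.1 hmem
      rw [Prod.mk.injEq] at he
      obtain ⟨e1, e2⟩ := he
      have e3 : v = vc := by
        by_contra hne
        exact hsep v hvm vc hvV hne (by rw [e1, heq])
      rw [← e2, e3, hm]
  · rw [if_neg h0] at hJ ⊢
    rw [if_neg h0]
    obtain ⟨⟨hJ1, hJ3⟩, hJ2⟩ := hJ
    refine ⟨⟨?_, hJ3⟩, ?_⟩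
    · rw [List.mem_flatMap]
      refine ⟨vc, hvV, ?_⟩
      rw [List.mem_flatMap]
      refine ⟨m₀, hJ3, ?_⟩
      rw [hval] at hJ1
      rw [if_pos hJ1]
      simp
    · intro v1 m1 hmem heq
      rw [List.mem_flatMap] at hmem
      obtain ⟨v, hvm, hmem⟩ := hmem
      rw [List.mem_flatMap] at hmem
      obtain ⟨m2, _, hmem⟩ := hmem
      split_ifs at hmem with hc
      · rw [List.mem_singleton, Prod.mk.injEq] at hmem
        obtain ⟨e1, e2⟩ := hmem
        subst e2
        have e3 : v = vc := by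
          by_contra hne
          exact hsep v hvm vc hvV hne (by rw [← e1, heq])
        subst e3
        exact hJ2 _ _ hc hval.symm
      · simp at hmem

end Pool.Agent.H334R5.Ct
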