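import Pool.Agent.H334R5.Ct.Stmts
import Pool.Agent.H671R2.PolyAuto

/-!
# The arithmetization counts satisfying assignments
-/

set_option autoImplicit false

namespace Pool.Agent.H334R5.Ct

namespace Tr

open Pool.Agent.NPC
open Pool.Agent.NPC.Cnt (SharpP vars SatBy satCount parsimonious)
open Pool.Agent.H334R5.Ps (upd)

/-- formulas over natural numbers -/
abbrev CN := List (List (Bool × ℕ))

/-- the list of the occurring variables -/
def vl (φ : CN) : List ℕ := φ.flatten.map fun q => q.2

/-- the first index of a variable -/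
def Fi (l : List ℕ) (v : ℕ) : ℕ :=
  (((List.range l.length).filter fun i => decide (l.getD i 0 = v)).head?).getD 0

/-- renaming of the variables -/
def ren (φ : CN) : CN := φ.map fun c => c.map fun q => (q.1, Fi (vl φ) q.2)

/-- unit clauses for the unused indices -/
def uns (φ : CN) : CN :=
  ((List.range (vl φ).length).filter fun i =>
    !decide (Fi (vl φ) ((vl φ).getD i 0) = i)).map fun i => [(false, i)]

/-- the indicator function -/
def ind (T : Finset ℕ) (i : ℕ) : ℕ := if i ∈ T then 1 else 0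

/-- the value of a clause as a function of the values -/
def clsF (α : ℕ → ℕ) (c : List (Bool × ℕ)) : ℕ :=
  c.foldr (fun l v => lt l.1 (α l.2) + lt (!l.1) (α l.2) * v) 0

/-- the value of a formula as a function of the values -/
def matF (C : CN) (α : ℕ → ℕ) : ℕ := C.foldr (fun c v => clsF α c * v) 1

theorem mat_eq (C : CN) (a : List ℕ) : mat C a = matF C (fun i => a.getD i 0) := rfl

theorem upd_getD (a : List ℕ) (j v i : ℕ) (hj : j < a.length) :
    (upd a j v).getD i 0 = if i = j then v else a.getD i 0 := by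
  unfold upd
  rcases Nat.lt_or_ge i a.length with h | h
  · rw [List.getD_eq_getElem?_getD, List.getElem?_map, List.getElem?_range h]
    rfl
  · rw [List.getD_eq_default _ _ (by simpa using h), List.getD_eq_default _ _ h, if_neg (by omega)]

theorem upd_length (a : List ℕ) (j v : ℕ) : (upd a j v).length = a.length := by simp [upd]

theorem val_eq (C : CN) (js : List ℕ) (hnd : js.Nodup) (a : List ℕ) (hj : ∀ j ∈ js, j < a.length) :
    val C js a = ∑ T ∈ js.toFinset.powerset,
      matF C (fun i => if i ∈ js then ind T i else a.getD i 0) := by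
  induction js generalizing a with
  | nil => simp [val, mat_eq]
  | cons j js ih =>
    have hjn : j ∉ js := (List.nodup_cons.1 hnd).1
    have hnd' := (List.nodup_cons.1 hnd).2
    have hjl : j < a.length := hj j (by simp)
    have hjs : ∀ k ∈ js, k < a.length := fun k hk => hj k (by simp [hk])
    rw [val, ih hnd' _ (by rw [upd_length]; exact hjs), ih hnd' _ (by rw [upd_length]; exact hjs),
      List.toFinset_cons, Finset.sum_powerset_insert (by simpa using hjn)]
    congr 1
    · refine Finset.sum_congr rfl fun T hT => ?_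
      congr 1
      funext i
      have hjT : j ∉ T := fun h => hjn (by simpa using Finset.mem_powerset.1 hT h)
      rw [upd_getD _ _ _ _ hjl]
      by_cases h1 : i = j
      · subst h1
        simp [hjn, ind, hjT]
      · simp [h1]
    · refine Finset.sum_congr rfl fun T hT => ?_
      congr 1
      funext i
      rw [upd_getD _ _ _ _ hjl]
      by_cases h1 : i = j
      · subst h1
        simp [hjn, ind]
      · simp [h1, ind]

theorem lt_ind (b : Bool) (T : Finset ℕ) (i : ℕ) :
    lt b (ind T i) = if b = decide (i ∈ T) then 1 else 0 := by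
  unfold lt ind
  by_cases h : i ∈ T <;> cases b <;> simp [h]

theorem clsF_ind (T : Finset ℕ) (c : List (Bool × ℕ)) :
    clsF (ind T) c = if ∃ l ∈ c, l.1 = decide (l.2 ∈ T) then 1 else 0 := by
  induction c with
  | nil => simp [clsF]
  | cons l c ih =>
    have : clsF (ind T) (l :: c) = lt l.1 (ind T l.2) + lt (!l.1) (ind T l.2) * clsF (ind T) c := rfl
    rw [this, ih, lt_ind, lt_ind]
    by_cases hq : l.1 = decide (l.2 ∈ T)
    · have hq' : ¬ (!l.1) = decide (l.2 ∈ T) := by
        rw [← hq]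
        cases l.1 <;> simp
      rw [if_pos hq, if_neg hq', zero_mul, add_zero, if_pos ⟨l, List.mem_cons_self, hq⟩]
    · have hq' : (!l.1) = decide (l.2 ∈ T) := by
        revert hq
        cases l.1 <;> cases decide (l.2 ∈ T) <;> simp
      rw [if_neg hq, if_pos hq', one_mul, zero_add]
      by_cases h : ∃ l ∈ c, l.1 = decide (l.2 ∈ T)
      · obtain ⟨m, hm, hm2⟩ := h
        rw [if_pos ⟨m, hm, hm2⟩, if_pos ⟨m, List.mem_cons_of_mem _ hm, hm2⟩]
      · rw [if_neg h, if_neg]
        rintro ⟨m, hm, hm2⟩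
        rcases List.mem_cons.1 hm with rfl | hm
        · exact hq hm2
        · exact h ⟨m, hm, hm2⟩

theorem matF_ind (T : Finset ℕ) (C : CN) :
    matF C (ind T) = if SatBy T C then 1 else 0 := by
  induction C with
  | nil => simp [matF, SatBy]
  | cons c C ih =>
    have : matF (c :: C) (ind T) = clsF (ind T) c * matF C (ind T) := rfl
    rw [this, ih, clsF_ind]
    have hs : SatBy T (c :: C) ↔ (∃ l ∈ c, l.1 = decide (l.2 ∈ T)) ∧ SatBy T C := by
      unfold SatBy
      exact List.forall_mem_cons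
    by_cases h1 : ∃ l ∈ c, l.1 = decide (l.2 ∈ T)
    · rw [if_pos h1, one_mul]
      by_cases h2 : SatBy T C
      · rw [if_pos h2, if_pos (hs.2 ⟨h1, h2⟩)]
      · rw [if_neg h2, if_neg fun h => h2 (hs.1 h).2]
    · rw [if_neg h1, zero_mul, if_neg fun h => h1 (hs.1 h).1]

theorem val_count (C : CN) (n : ℕ) : val C (List.range n) (List.replicate n 0) =
    ((Finset.range n).powerset.filter fun T => SatBy T C).card := by
  rw [val_eq C _ List.nodup_range _ (by simp), Finset.card_filter]
  have h : (List.range n).toFinset = Finset.range n := by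
    ext i
    simp
  rw [h]
  refine Finset.sum_congr rfl fun T hT => ?_
  rw [← matF_ind]
  congr 1
  funext i
  by_cases h1 : i ∈ List.range n
  · rw [if_pos h1]
  · rw [if_neg h1]
    have h2 : i ∉ T := fun h => h1 (by simpa using Finset.mem_powerset.1 hT h)
    rw [ind, if_neg h2]
    simp

theorem Fi_spec (l : List ℕ) (v : ℕ) (hv : v ∈ l) : Fi l v < l.length ∧ l.getD (Fi l v) 0 = v := by
  obtain ⟨i, hi, hiv⟩ := List.mem_iff_getElem.1 hv
  have hm : i ∈ (List.range l.length).filter fun i => decide (l.getD i 0 = v) := by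
    rw [List.mem_filter]
    refine ⟨List.mem_range.2 hi, ?_⟩
    rw [decide_eq_true_eq, List.getD_eq_getElem _ _ hi, hiv]
  obtain ⟨L, hL⟩ : ∃ L, L = (List.range l.length).filter fun i => decide (l.getD i 0 = v) := ⟨_, rfl⟩
  rw [← hL] at hm
  have hF : Fi l v = L.head?.getD 0 := by rw [hL]; rfl
  cases L with
  | nil => exact absurd hm List.not_mem_nil
  | cons j L' =>
    have hj : j ∈ (List.range l.length).filter fun i => decide (l.getD i 0 = v) := by
      rw [← hL]
      exact List.mem_cons_self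
    rw [List.mem_filter, List.mem_range, decide_eq_true_eq] at hj
    rw [hF]
    exact hj

theorem mem_vl {φ : CN} {v : ℕ} : v ∈ vl φ ↔ v ∈ vars φ := by
  unfold vl vars
  rw [List.mem_toFinset]

theorem satBy_iff (φ : CN) (T : Finset ℕ) : SatBy T (ren φ ++ uns φ) ↔
    SatBy ((vars φ).filter fun v => Fi (vl φ) v ∈ T) φ ∧
      ∀ i < (vl φ).length, Fi (vl φ) ((vl φ).getD i 0) ≠ i → i ∉ T := by
  unfold SatBy
  constructor
  · intro h
    constructor
    · intro c hc
      obtain ⟨l, hl, hl2⟩ := h (c.map fun q => (q.1, Fi (vl φ) q.2))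
        (List.mem_append_left _ (List.mem_map.2 ⟨c, hc, rfl⟩))
      obtain ⟨q, hq, rfl⟩ := List.mem_map.1 hl
      refine ⟨q, hq, ?_⟩
      have hqv : q.2 ∈ vars φ := Pool.Agent.NPC.Cnt.mem_vars.2 ⟨c, hc, q.1, hq⟩
      rw [hl2, decide_eq_decide, Finset.mem_filter]
      exact ⟨fun h => ⟨hqv, h⟩, fun h => h.2⟩
    · intro i hi hne
      obtain ⟨l, hl, hl2⟩ := h [(false, i)] (List.mem_append_right _
        (List.mem_map.2 ⟨i, List.mem_filter.2 ⟨List.mem_range.2 hi, by
          rw [Bool.not_eq_true', decide_eq_false_iff_not]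
          exact hne⟩, rfl⟩))
      rw [List.mem_singleton] at hl
      subst hl
      simpa using hl2
  · rintro ⟨h1, h2⟩ c hc
    rcases List.mem_append.1 hc with hc | hc
    · obtain ⟨d, hd, rfl⟩ := List.mem_map.1 hc
      obtain ⟨q, hq, hq2⟩ := h1 d hd
      refine ⟨(q.1, Fi (vl φ) q.2), List.mem_map.2 ⟨q, hq, rfl⟩, ?_⟩
      have hqv : q.2 ∈ vars φ := Pool.Agent.NPC.Cnt.mem_vars.2 ⟨d, hd, q.1, hq⟩
      refine hq2.trans (decide_eq_decide.2 ?_)
      rw [Finset.mem_filter]
      exact ⟨fun h => h.2, fun h => ⟨hqv, h⟩⟩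
    · obtain ⟨i, hi, rfl⟩ := List.mem_map.1 hc
      rw [List.mem_filter, List.mem_range] at hi
      refine ⟨(false, i), by simp, ?_⟩
      have := h2 i hi.1 (by simpa using hi.2)
      simp [this]

theorem count_eq (φ : CN) : satCount φ =
    ((Finset.range (vl φ).length).powerset.filter fun T => SatBy T (ren φ ++ uns φ)).card := by
  have hspec : ∀ v ∈ vars φ, Fi (vl φ) v < (vl φ).length ∧ (vl φ).getD (Fi (vl φ) v) 0 = v :=
    fun v hv => Fi_spec _ _ (mem_vl.2 hv)
  have hpre : ∀ S ⊆ vars φ, (vars φ).filter (fun v => Fi (vl φ) v ∈ S.image (Fi (vl φ))) = S := by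
    intro S hS
    ext v
    rw [Finset.mem_filter, Finset.mem_image]
    constructor
    · rintro ⟨hv, w, hw, hwv⟩
      have h1 := (hspec v hv).2
      rw [← hwv, (hspec w (hS hw)).2] at h1
      rwa [← h1]
    · intro hv
      exact ⟨hS hv, v, hv, rfl⟩
  unfold satCount
  refine Finset.card_bij' (fun S _ => S.image (Fi (vl φ)))
    (fun T _ => (vars φ).filter fun v => Fi (vl φ) v ∈ T) ?_ ?_ ?_ ?_
  · intro S hS
    rw [Finset.mem_filter, Finset.mem_powerset] at hS ⊢
    refine ⟨?_, ?_⟩
    · intro i hi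
      obtain ⟨v, hv, rfl⟩ := Finset.mem_image.1 hi
      exact Finset.mem_range.2 (hspec v (hS.1 hv)).1
    · rw [satBy_iff, hpre S hS.1]
      refine ⟨hS.2, fun i _ hne hi => hne ?_⟩
      obtain ⟨v, hv, rfl⟩ := Finset.mem_image.1 hi
      rw [(hspec v (hS.1 hv)).2]
  · intro T hT
    rw [Finset.mem_filter, Finset.mem_powerset] at hT ⊢
    rw [satBy_iff] at hT
    exact ⟨Finset.filter_subset _ _, hT.2.1⟩
  · intro S hS
    rw [Finset.mem_filter, Finset.mem_powerset] at hS
    exact hpre S hS.1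
  · intro T hT
    rw [Finset.mem_filter, Finset.mem_powerset, satBy_iff] at hT
    ext i
    rw [Finset.mem_image]
    constructor
    · rintro ⟨v, hv, rfl⟩
      exact (Finset.mem_filter.1 hv).2
    · intro hi
      have hil : i < (vl φ).length := Finset.mem_range.1 (hT.1 hi)
      have h1 : Fi (vl φ) ((vl φ).getD i 0) = i := by
        by_contra hne
        exact hT.2.2 i hil hne hi
      refine ⟨(vl φ).getD i 0, ?_, h1⟩
      rw [Finset.mem_filter, h1]
      refine ⟨?_, hi⟩
      rw [← mem_vl, List.getD_eq_getElem _ _ hil]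
      exact List.getElem_mem hil

/-! ### polynomial time -/

theorem poly_vl : NPC.Poly vl :=
  NPC.Poly.map (l := fun φ : CN => φ.flatten) (F := fun _ (q : Bool × ℕ) => q.2)
    (NPC.Poly.flatten NPC.Poly.id) (NPC.Poly.snd (NPC.Poly.snd NPC.Poly.id))

theorem poly_Fi {α : Type} [TEnc α] {l : α → List ℕ} {v : α → ℕ} (hl : NPC.Poly l) (hv : NPC.Poly v) :
    NPC.Poly (fun a => Fi (l a) (v a)) := by
  refine NPC.Poly.optGetD (NPC.Poly.head? (NPC.Poly.filter (p := fun a i => decide ((l a).getD i 0 = v a))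
    (NPC.Poly.range_length hl) ?_)) (NPC.Poly.const 0)
  exact NPC.Poly.decide_eq (NPC.Poly.getD (hl.comp (NPC.Poly.fst NPC.Poly.id)) (NPC.Poly.snd NPC.Poly.id) (NPC.Poly.const 0))
    (hv.comp (NPC.Poly.fst NPC.Poly.id))

theorem poly_ren : NPC.Poly ren := by
  refine NPC.Poly.map (l := fun φ : CN => φ) (F := fun φ (c : List (Bool × ℕ)) =>
    c.map fun q => (q.1, Fi (vl φ) q.2)) NPC.Poly.id ?_
  refine NPC.Poly.map (l := fun p : CN × List (Bool × ℕ) => p.2)
    (F := fun p (q : Bool × ℕ) => (q.1, Fi (vl p.1) q.2)) (NPC.Poly.snd NPC.Poly.id) ?_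
  exact NPC.Poly.pair (NPC.Poly.fst (NPC.Poly.snd NPC.Poly.id))
    (poly_Fi (poly_vl.comp (NPC.Poly.fst (NPC.Poly.fst NPC.Poly.id))) (NPC.Poly.snd (NPC.Poly.snd NPC.Poly.id)))

theorem poly_uns : NPC.Poly uns := by
  refine NPC.Poly.map (F := fun (_ : CN) (i : ℕ) => [(false, i)]) (NPC.Poly.filter
    (p := fun (φ : CN) (i : ℕ) => !decide (Fi (vl φ) ((vl φ).getD i 0) = i))
    (NPC.Poly.range_length poly_vl) ?_) ?_
  · refine NPC.Poly.not (NPC.Poly.decide_eq (poly_Fi (poly_vl.comp (NPC.Poly.fst NPC.Poly.id)) ?_) (NPC.Poly.snd NPC.Poly.id))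
    exact NPC.Poly.getD (poly_vl.comp (NPC.Poly.fst NPC.Poly.id)) (NPC.Poly.snd NPC.Poly.id) (NPC.Poly.const 0)
  · exact NPC.Poly.cons (NPC.Poly.pair (NPC.Poly.const false) (NPC.Poly.snd NPC.Poly.id)) (NPC.Poly.const [])

end Tr

open Tr Pool.Agent.NPC in
theorem taskTruth : TaskTruth := by
  rintro f ⟨V, p, hV, hf⟩
  obtain ⟨G, hG, hGf⟩ := Pool.Agent.NPC.Cnt.parsimonious hV p
  have hG' : NPC.Poly G := PC.comp hG Pool.Agent.NPC.Cnt.pc_raw
  refine ⟨fun x => (ren (G x) ++ uns (G x), (vl (G x)).map fun _ => ()), ?_, fun x => ?_⟩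
  · exact NPC.Poly.pair (NPC.Poly.append (poly_ren.comp hG') (poly_uns.comp hG'))
      (NPC.Poly.map (F := fun _ _ => ()) (poly_vl.comp hG') (NPC.Poly.const ()))
  · show f x = val (ren (G x) ++ uns (G x)) (List.range ((vl (G x)).map fun _ => ()).length)
      (List.replicate ((vl (G x)).map fun _ => ()).length 0)
    rw [List.length_map, val_count, ← count_eq, hGf, hf]

end Pool.Agent.H334R5.Ct
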