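import Pool.Agent.H334R5.Ct.Conv
import Pool.Agent.H334R5.Ct.TaskTruth
import Pool.Agent.H334R5.Ct.TaskDegree
import Pool.Agent.H334R5.Ct.TaskExtr1
import Pool.Agent.H334R5.Ct.TaskExtr2
import Pool.Agent.H334R5.Ct.TaskBound
import Pool.Agent.H334R5.Ct.TaskLBval
import Pool.Agent.H334R5.Ct.TaskSharp
import Pool.Agent.H334R5.Ct.TaskTrans
import Pool.Agent.H334R5.Ct.TaskPolyStep
import Pool.Agent.H334R5.Ct.TaskPolyVal
import Pool.Agent.H334R5.Ct.TaskFPbits
import Pool.Agent.H334R5.Ct.TaskPPcomplete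
import Pool.Agent.H334R5.Ps.TaskExp
import Pool.Agent.H334R5.Ps.TaskMachP
import Pool.Agent.H334R5.Ps.TaskMachNP
import Pool.Agent.H334R5.Ph.FinalPS

/-!
# Counting and threshold patterns: results
-/

set_option autoImplicit false

namespace Pool.Agent.H334R5.Ct

open Pool.Agent.NPC
open Pool.Agent.NPC.Cnt (SharpP FP)
open Pool.Agent.NPC.Med (InPPc)
open Pool.Agent.H334R5.Nd (Pattern DetExcluder)
open Pool.Agent.H334R5.Ps (Mach Refuter2 taskMachP taskMachNP detExcluder_of_inP refuter2_of_np)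
open Pool.Agent.H334R5.Ph (Sig SigRefuter2)

theorem machPP' {A L : Set (List Bool)} (q : Polynomial ℕ) (hA : PPHard A) (hL : InPPc L) :
    Nonempty (Mach A L q) :=
  machPP taskTruth taskDegree taskExtr1 taskExtr2 taskBound taskLBval (taskSharp_of taskPolyVal)
    Ps.TExp.taskExp taskPolyVal taskPolyStep taskTrans q hA hL

theorem machBits' {A : Set (List Bool)} (q : Polynomial ℕ) (hA : PPHard A) {f : List Bool → ℕ}
    (hf : SharpP f) :
    Nonempty (Mach A (lang fun y : List Bool × ℕ => (f y.1).testBit y.2 = true) q) :=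
  machBits taskTruth taskDegree taskExtr1 taskExtr2 taskBound taskLBval (taskSharp_of taskPolyVal)
    Ps.TExp.taskExp taskPolyVal taskPolyStep taskTrans q hA hf

/-- `#P ⊆ FP` if and only if threshold patterns of some `PP`-hard set can be excluded in
polynomial time. -/
theorem sharp_iff :
    (∃ (A : Set (List Bool)) (q : Polynomial ℕ) (E : List (List Bool) → ℕ),
      PPHard A ∧ DetExcluder A q E) ↔ ∀ f : List Bool → ℕ, SharpP f → FP f := by
  constructor
  · rintro ⟨A, q, E, hA, hE⟩ f hf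
    have h1 := taskMachP A _ q E hE (machBits' q hA hf)
    obtain ⟨V, p, hV, hVf⟩ := hf
    refine taskFPbits f (p + 1) (fun x => ?_) h1
    have h2 := card_le (V := V) p x
    rw [← hVf x] at h2
    refine lt_of_le_of_lt h2 (Nat.pow_lt_pow_right (by norm_num) ?_)
    rw [Polynomial.eval_add, Polynomial.eval_one]
    omega
  · intro h
    obtain ⟨⟨A, hA1, hA2⟩, h3⟩ := taskPPcomplete
    obtain ⟨q, E, hE⟩ := detExcluder_of_inP (h3 h A hA1)
    exact ⟨A, q, E, hA2, hE⟩

/-- `PP ⊆ NP` if and only if threshold patterns of some `PP`-hard set can be refuted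
nondeterministically; this is also equivalent to `PP = NP ∪ coNP`. -/
theorem pp_np_iff :
    ((∃ (A : Set (List Bool)) (q ℓ : Polynomial ℕ) (E : List (List Bool) → List Bool → ℕ),
      PPHard A ∧ Refuter2 A q ℓ E) ↔ ∀ L : Set (List Bool), InPPc L → InNP L) ∧
    ((∀ L : Set (List Bool), InPPc L → InNP L) ↔
      ∀ L : Set (List Bool), InPPc L → InNP L ∨ InNP Lᶜ) := by
  obtain ⟨⟨A, hA1, hA2⟩, -⟩ := taskPPcomplete
  have hr := compl_reduces hA2 hA1
  have hr' : Reduces A Aᶜ := by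
    obtain ⟨f, hf, hfA⟩ := hr
    exact ⟨f, hf, fun x => by
      have := hfA x
      rw [Set.mem_compl_iff] at this
      rw [Set.mem_compl_iff, ← this, not_not]⟩
  refine ⟨⟨?_, ?_⟩, ⟨fun h L hL => Or.inl (h L hL), ?_⟩⟩
  · rintro ⟨B, q, ℓ, E, hB, hE⟩ L hL
    exact taskMachNP B L q ℓ E hE (machPP' q hB hL)
  · intro h
    have h1 := h A hA1
    have h2 : InNP Aᶜ := Pool.Agent.H622R2.InNP.of_reduces hr h1
    obtain ⟨q, ℓ, E, hE⟩ := refuter2_of_np h1 h2
    exact ⟨A, q, ℓ, E, hA2, hE⟩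
  · intro h L hL
    have h1 : InNP A := by
      rcases h A hA1 with h1 | h1
      · exact h1
      · exact Pool.Agent.H622R2.InNP.of_reduces hr' h1
    exact Pool.Agent.H622R2.InNP.of_reduces (hA2 L hL) h1

/-- `PP ⊆ PH` if and only if threshold patterns of some `PP`-hard set can be refuted in the
polynomial hierarchy; the same for the levels. -/
theorem pp_ph_iff :
    ((∃ (A : Set (List Bool)) (q : Polynomial ℕ) (k : ℕ) (R : List (List Bool) → ℕ → Prop),
      PPHard A ∧ SigRefuter2 k A q R) ↔ ∀ L : Set (List Bool), InPPc L → ∃ k, Sig k L) ∧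
    ∀ k : ℕ, (∃ (A : Set (List Bool)) (q : Polynomial ℕ) (R : List (List Bool) → ℕ → Prop),
      PPHard A ∧ SigRefuter2 (k + 1) A q R) ↔
        ∀ L : Set (List Bool), InPPc L → Sig (k + 1) L := by
  obtain ⟨⟨A, hA1, hA2⟩, -⟩ := taskPPcomplete
  have hr := compl_reduces hA2 hA1
  have key : ∀ (k : ℕ) (B : Set (List Bool)) (q : Polynomial ℕ)
      (R : List (List Bool) → ℕ → Prop), PPHard B → SigRefuter2 (k + 1) B q R →
        ∀ L : Set (List Bool), InPPc L → Sig (k + 1) L := fun k B q R hB hR L hL =>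
    Ph.taskMachSig Ph.taskCase Ph.taskAny Ph.taskAll Ph.taskEx Ph.taskIncl k B L q R hR
      (machPP' q hB hL)
  refine ⟨⟨?_, ?_⟩, fun k => ⟨?_, ?_⟩⟩
  · rintro ⟨B, q, k, R, hB, hR⟩ L hL
    exact ⟨k + 1, key k B q R hB ⟨Ph.sig_succ hR.sig, hR.sound, hR.complete⟩ L hL⟩
  · intro h
    obtain ⟨k, hk⟩ := h A hA1
    obtain ⟨q, R, hR⟩ := Ph.refuter2_of_sig hk hr
    exact ⟨A, q, k, R, hA2, hR⟩
  · rintro ⟨B, q, R, hB, hR⟩ L hL
    exact key k B q R hB hR L hL
  · intro h
    obtain ⟨q, R, hR⟩ := Ph.refuter2_of_sig (h A hA1) hr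
    exact ⟨A, q, R, hA2, hR⟩

end Pool.Agent.H334R5.Ct
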