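import Pool.Agent.H334R5.Ct.Stmts
import Pool.Agent.H334R5.Ps.Mach3

/-!
# The search machine for counting
-/

set_option autoImplicit false

namespace Pool.Agent.H334R5.Ct

open Pool.Agent.NPC
open Pool.Agent.NPC.Cnt (SharpP FP)
open Pool.Agent.NPC.Med (InPPc)
open Pool.Agent.H334R5.Clo (num ext)
open Pool.Agent.H334R5.Nd (Pattern DetExcluder remove_sublist length_remove)
open Pool.Agent.H334R5.Ps (upd extr pickz fix decv lc Mach upd_length mem_upd pickz_le extr_lt
  sz_nat_lt sz_nat_self sz_units)

theorem pattern_target {f : List Bool → List Bool} {A : Set (List Bool)} {c : Ctx}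
    {Cs : List (List Bool)} {i : ℕ}
    (hf : ∀ u : List Bool, u.length = i →
      (f (bits ((c, u) : Ctx × List Bool)) ∈ A ↔ num u ≤ num ((W c).take u.length)))
    (hlen : ∀ u ∈ Cs, u.length = i)
    (hsort : Cs.Pairwise (fun v w => num v < num w)) {k : ℕ} (hk : k < Cs.length)
    (hkw : Cs[k] = (W c).take i) :
    Pattern A (Cs.tail.map fun u => f (bits ((c, u) : Ctx × List Bool))) k := by
  set L := Cs.tail.map fun u => f (bits ((c, u) : Ctx × List Bool)) with hL
  have hLlen : L.length = Cs.length - 1 := by rw [hL, List.length_map, List.length_tail]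
  have hsorted : ∀ (j j' : ℕ) (hj : j < Cs.length) (hj' : j' < Cs.length), j < j' →
      num Cs[j] < num Cs[j'] := fun j j' hj hj' h =>
    List.pairwise_iff_getElem.1 hsort j j' hj hj' h
  have hLget : ∀ (j : ℕ) (hj : j < L.length),
      L[j] = f (bits ((c, Cs[j + 1]'(by omega)) : Ctx × List Bool)) := by
    intro j hj
    simp only [hL, List.getElem_map, List.getElem_tail]
  refine ⟨by omega, fun y hy => ?_, fun y hy => ?_⟩
  · obtain ⟨j, hj, rfl⟩ := List.getElem_of_mem hy
    rw [List.length_take] at hj
    rw [List.getElem_take, hLget j (by omega), hf _ (hlen _ (List.getElem_mem _)),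
      hlen _ (List.getElem_mem _), ← hkw]
    rcases Nat.lt_or_ge (j + 1) k with h2 | h2
    · exact (hsorted _ _ _ hk h2).le
    · have h3 : j + 1 = k := by omega
      simp only [h3, le_refl]
  · obtain ⟨j, hj, rfl⟩ := List.getElem_of_mem hy
    rw [List.length_drop] at hj
    rw [List.getElem_drop, hLget (k + j) (by omega), hf _ (hlen _ (List.getElem_mem _)),
      hlen _ (List.getElem_mem _), ← hkw, not_le]
    exact hsorted _ _ hk _ (by omega)

/-- The shape of the states. -/
structure ShC (Q M N w k len : ℕ) (s : CSt) : Prop where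
  t_le : s.1 ≤ len
  a_len : s.2.1.length = k
  a_le : ∀ y ∈ s.2.1, y ≤ M * M * N
  b_len : s.2.2.1.length ≤ M * (M + 1)
  b_lt : ∀ b ∈ s.2.2.1, b.1 < Q ∧ b.2 < 2 * Q
  m_len : s.2.2.2.1.length ≤ M
  m_lt : ∀ m ∈ s.2.2.2.1, m < 2 * Q
  rem : s.2.2.2.2.1 ≤ N * w
  c_len : ∀ u ∈ s.2.2.2.2.2, u.length = N * w - s.2.2.2.2.1
  sorted : s.2.2.2.2.2.Pairwise (fun v w => num v < num w)
  short : s.2.2.2.2.2.length ≤ 2 * M

variable {Q M N w k : ℕ} {js : List ℕ}

theorem decv_getD_lt (hQ : 0 < Q) (y : List Bool) (i : ℕ) : (decv Q N w y).getD i 0 < Q := by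
  unfold decv
  rcases Nat.lt_or_ge i N with h | h
  · rw [List.getD_eq_getElem?_getD, List.getElem?_eq_getElem (by simpa using h),
      Option.getD_some, List.getElem_map]
    exact Nat.mod_lt _ hQ
  · rw [List.getD_eq_getElem?_getD, List.getElem?_eq_none (by simpa using h), Option.getD_none]
    exact hQ

theorem stepC_shape (hQ : 0 < Q) (hM : 1 ≤ M) {s : CSt}
    (hs : ShC Q M N w k js.length s) (m : ℕ) :
    ShC Q M N w k js.length (stepC Q M N w js s m) := by
  unfold stepC
  split_ifs with h1 h2 h3
  · exact hs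
  · have hsub := remove_sublist s.2.2.2.2.2 (min m (s.2.2.2.2.2.length - 1))
    exact ⟨hs.t_le, hs.a_len, hs.a_le, hs.b_len, hs.b_lt, hs.m_len, hs.m_lt, hs.rem,
      fun u hu => hs.c_len u (hsub.subset hu), hs.sorted.sublist hsub,
      hsub.length_le.trans hs.short⟩
  · have hCM : s.2.2.2.2.2.length ≤ M := not_lt.1 h2
    have hV : ∀ v ∈ s.2.2.2.2.2.map (decv Q N w), v.getD 0 0 + v.getD 1 0 < 2 * Q := by
      intro v hv
      rw [List.mem_map] at hv
      obtain ⟨y, -, rfl⟩ := hv
      have e1 := decv_getD_lt (N := N) (w := w) hQ y 0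
      have e2 := decv_getD_lt (N := N) (w := w) hQ y 1
      omega
    refine ⟨by simp only [trans]; omega, ?_, ?_, ?_, ?_, ?_, ?_, le_rfl, ?_, ?_, ?_⟩
    · simp only [trans]
      rw [upd_length, hs.a_len]
    · intro y hy
      simp only [trans] at hy
      rcases mem_upd hy with rfl | hy
      · exact pickz_le _ _ _ _
      · exact hs.a_le y hy
    · simp only [trans]
      split_ifs with h4
      · rw [List.length_map, List.length_map]
        exact hCM.trans (Nat.le_mul_of_pos_right M (Nat.succ_pos M))
      · rw [List.length_flatMap]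
        have h5 : ∀ n ∈ ((s.2.2.2.2.2.map (decv Q N w)).map fun v =>
            (s.2.2.2.1.flatMap (fun m => if (v.getD 0 0 + v.getD 1 0, m) ∈ s.2.2.1 then
              [(extr Q v (pickz Q M N (s.2.2.2.2.2.map (decv Q N w))), m)] else [])).length),
              n ≤ M := by
          intro n hn
          rw [List.mem_map] at hn
          obtain ⟨v, -, rfl⟩ := hn
          rw [List.length_flatMap]
          refine (List.sum_le_card_nsmul _ 1 ?_).trans ?_
          · intro j hj
            rw [List.mem_map] at hj
            obtain ⟨m', -, rfl⟩ := hj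
            split_ifs <;> simp
          · rw [List.length_map, smul_eq_mul, mul_one]
            exact hs.m_len
        have h6 := List.sum_le_card_nsmul _ M h5
        rw [List.length_map, List.length_map, smul_eq_mul] at h6
        refine h6.trans (Nat.mul_le_mul hCM (Nat.le_succ M))
    · intro b hb
      simp only [trans] at hb
      split_ifs at hb with h4
      · rw [List.mem_map] at hb
        obtain ⟨v, hv, rfl⟩ := hb
        exact ⟨extr_lt hQ _ _, hV v hv⟩
      · rw [List.mem_flatMap] at hb
        obtain ⟨v, -, hb⟩ := hb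
        rw [List.mem_flatMap] at hb
        obtain ⟨m', hm', hb⟩ := hb
        split_ifs at hb with h5
        · rw [List.mem_singleton] at hb
          subst hb
          exact ⟨extr_lt hQ _ _, hs.m_lt m' hm'⟩
        · simp at hb
    · simp only [trans]
      split_ifs with h4
      · rw [List.length_map, List.length_map]
        exact hCM
      · exact hs.m_len
    · intro m' hm'
      simp only [trans] at hm'
      split_ifs at hm' with h4
      · rw [List.mem_map] at hm'
        obtain ⟨v, hv, rfl⟩ := hm'
        exact hV v hv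
      · exact hs.m_lt m' hm'
    · intro u hu
      simp only [trans, List.mem_singleton] at hu
      subst hu
      simp [trans]
    · simp [trans]
    · simp [trans]
      omega
  · have hr := hs.rem
    refine ⟨hs.t_le, hs.a_len, hs.a_le, hs.b_len, hs.b_lt, hs.m_len, hs.m_lt,
      by simp only; omega, fun u hu => ?_, Clo.ext_sorted hs.sorted, ?_⟩
    · obtain ⟨v, hv, c, rfl⟩ := Clo.mem_ext.1 hu
      have := hs.c_len v hv
      simp only [List.length_append, List.length_cons, List.length_nil]
      omega
    · simp only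
      rw [Clo.ext_length]
      omega

/-- The potential. -/
def potC (M N w len : ℕ) (s : CSt) : ℕ :=
  (len - s.1) * (N * w * (M + 1) + 3) + (s.2.2.2.2.1 * (M + 1) + s.2.2.2.2.2.length)

theorem stepC_pot {s : CSt} (m : ℕ) :
    (stepC Q M N w js s m = s ∧ js.length ≤ s.1) ∨
      potC M N w js.length (stepC Q M N w js s m) < potC M N w js.length s := by
  unfold stepC
  split_ifs with h1 h2 h3
  · exact Or.inl ⟨rfl, h1⟩
  · right
    have h3 := length_remove (l := s.2.2.2.2.2) (k := min m (s.2.2.2.2.2.length - 1)) (by omega)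
    unfold potC
    simp only
    omega
  · right
    unfold potC
    simp only [trans, List.length_cons, List.length_nil]
    obtain ⟨d, hd⟩ : ∃ d, js.length - s.1 = d + 1 := ⟨js.length - s.1 - 1, by omega⟩
    have h4 : js.length - (s.1 + 1) = d := by omega
    rw [hd, h4, add_mul, one_mul]
    omega
  · right
    unfold potC
    simp only
    rw [Clo.ext_length]
    obtain ⟨j, hj⟩ := Nat.exists_eq_succ_of_ne_zero h3
    rw [hj]
    simp only [Nat.succ_eq_add_one, Nat.add_sub_cancel, add_mul, one_mul]
    omega

theorem stepC_le {s : CSt} (hs : s.1 ≤ js.length) (m : ℕ) :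
    (stepC Q M N w js s m).1 ≤ js.length := by
  unfold stepC
  split_ifs with h1 h2 h3
  · exact hs
  · exact hs
  · simp only [trans]; omega
  · exact hs

theorem run_rank (init : CSt) (ks : ℕ → ℕ) (T : ℕ)
    (h : potC M N w js.length init < T) (h0 : init.1 ≤ js.length) :
    (Nat.rec (motive := fun _ => CSt) init (fun t s => stepC Q M N w js s (ks t)) T).1 =
      js.length := by
  set r : ℕ → CSt := fun T => Nat.rec (motive := fun _ => CSt) init
    (fun t s => stepC Q M N w js s (ks t)) T with hr
  have hr0 : r 0 = init := rfl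
  have hrs : ∀ t, r (t + 1) = stepC Q M N w js (r t) (ks t) := fun t => rfl
  have hb : ∀ t, (r t).1 ≤ js.length := by
    intro t
    induction t with
    | zero => exact h0
    | succ t ih => rw [hrs]; exact stepC_le ih _
  have key : ∀ t, (r t).1 = js.length ∨ potC M N w js.length (r t) + t ≤
      potC M N w js.length init := by
    intro t
    induction t with
    | zero => right; rw [hr0]; omega
    | succ t ih =>
      rw [hrs]
      rcases ih with h1 | h1
      · left
        have : stepC Q M N w js (r t) (ks t) = r t := by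
          unfold stepC
          rw [if_pos (le_of_eq h1.symm)]
        rw [this, h1]
      · rcases stepC_pot (Q := Q) (M := M) (N := N) (w := w) (js := js) (s := r t) (ks t) with
          ⟨h2, h3⟩ | h2
        · left
          rw [h2]
          exact le_antisymm (hb t) h3
        · right
          omega
  rcases key T with h1 | h1
  · exact h1
  · omega

/-- The invariant. -/
def InvC (N w : ℕ) (C : List (List (Bool × ℕ))) (js : List ℕ) (m₀ : ℕ) (s : CSt) : Prop :=
  JJ C js m₀ s ∧ (s.1 < js.length →
    (W (ctxOf N w C js s)).take (N * w - s.2.2.2.2.1) ∈ s.2.2.2.2.2)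

theorem W_length (N w : ℕ) (C : List (List (Bool × ℕ))) (js : List ℕ)
    (s : CSt) : (W (ctxOf N w C js s)).length = N * w := by
  unfold W ctxOf vec
  rw [List.length_flatMap, List.map_map]
  simp only [List.length_replicate]
  have h : ∀ n ∈ (List.range N).map (List.length ∘ fix w ∘ fun z =>
      val C (js.drop (s.1 + 1)) (upd s.2.1 (js.getD s.1 0) z)), n = w := by
    intro n hn
    rw [List.mem_map] at hn
    obtain ⟨z, -, rfl⟩ := hn
    simp only [Function.comp_apply, fix, List.length_reverse, List.length_take,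
      List.length_append, List.length_replicate]
    omega
  have h2 := List.sum_eq_card_nsmul _ w h
  rw [List.length_map, List.length_range, smul_eq_mul] at h2
  exact h2

/-- the entries of the vector are small -/
theorem vec_lt (hB : TaskBound) {C : List (List (Bool × ℕ))} (hM : 1 ≤ M)
    (hN : N = 2 * lc C + 2) (hw : 2 ^ js.length * (2 * (M * M * N) * (M * M * N)) ^ lc C < 2 ^ w)
    {s : CSt} (ha : ∀ y ∈ s.2.1, y ≤ M * M * N) :
    ∀ y ∈ vec (ctxOf N w C js s), y < 2 ^ (ctxOf N w C js s).2.2.2.2.2.length := by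
  intro y hy
  unfold vec ctxOf at hy
  rw [List.mem_map] at hy
  obtain ⟨z, hz, rfl⟩ := hy
  simp only [List.length_replicate, List.mem_range] at hz
  unfold ctxOf
  simp only [List.length_replicate]
  have hNA : N ≤ M * M * N := Nat.le_mul_of_pos_left N (Nat.mul_pos hM hM)
  refine lt_of_le_of_lt ?_ hw
  refine (hB C (js.drop (s.1 + 1)) (upd s.2.1 (js.getD s.1 0) z) (M * M * N) (by omega) ?_).trans ?_
  · intro y hy
    rcases mem_upd hy with rfl | hy
    · omega
    · exact ha y hy
  · refine Nat.mul_le_mul_right _ (Nat.pow_le_pow_right (by norm_num) ?_)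
    rw [List.length_drop]
    omega

theorem stepC_inv (hDeg : TaskDegree) (hE1 : TaskExtr1) (hE2 : TaskExtr2) (hB : TaskBound)
    (hTr : TaskTrans) {C : List (List (Bool × ℕ))} {m₀ : ℕ}
    (hN : N = 2 * lc C + 2) (hQ : 2 * (N * (2 ^ N * 2 ^ w * (M * M * N + 1) ^ N)) < Q)
    (hw : 2 ^ js.length * (2 * (M * M * N) * (M * M * N)) ^ lc C < 2 ^ w) (hM : 1 ≤ M)
    {A : Set (List Bool)} {f : List Bool → List Bool}
    (hf : ∀ (c : Ctx) (u : List Bool), (∀ y ∈ vec c, y < 2 ^ c.2.2.2.2.2.length) →
      u.length ≤ c.2.2.2.2.1.length * c.2.2.2.2.2.length →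
      (f (bits ((c, u) : Ctx × List Bool)) ∈ A ↔ num u ≤ num ((W c).take u.length)))
    {s : CSt} (hs : ShC Q M N w js.length js.length s)
    (hi : InvC N w C js m₀ s) (k : ℕ)
    (hk : s.1 < js.length → M < s.2.2.2.2.2.length →
      k ≤ (qryC f N w C js s).length ∧ ¬ Pattern A (qryC f N w C js s) k) :
    InvC N w C js m₀ (stepC Q M N w js s k) := by
  have hfc : ∀ u : List Bool, u.length = N * w - s.2.2.2.2.1 →
      (f (bits ((ctxOf N w C js s, u) : Ctx × List Bool)) ∈ A ↔
        num u ≤ num ((W (ctxOf N w C js s)).take u.length)) := by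
    intro u hu
    refine hf _ u (vec_lt hB hM hN hw hs.a_le) ?_
    unfold ctxOf
    simp only [List.length_replicate]
    omega
  unfold stepC
  split_ifs with h1 h2 h3
  · exact hi
  · -- pruning
    have h1' : s.1 < js.length := not_le.1 h1
    have hmem := hi.2 h1'
    obtain ⟨hkl, hpat⟩ := hk h1' h2
    refine ⟨hi.1, fun _ => ?_⟩
    have e0 : ctxOf N w C js (s.1, s.2.1, s.2.2.1, s.2.2.2.1, s.2.2.2.2.1,
        s.2.2.2.2.2.take (min k (s.2.2.2.2.2.length - 1)) ++
          s.2.2.2.2.2.drop (min k (s.2.2.2.2.2.length - 1) + 1)) = ctxOf N w C js s := rfl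
    rw [e0]
    simp only
    obtain ⟨k0, hk0, hk0w⟩ := List.getElem_of_mem hmem
    have hp := pattern_target hfc hs.c_len hs.sorted hk0 hk0w
    have hne : k0 ≠ k := by
      rintro rfl
      exact hpat hp
    have hl : (qryC f N w C js s).length = s.2.2.2.2.2.length - 1 := by
      unfold qryC
      rw [List.length_map, List.length_tail]
    rw [hl] at hkl
    have hmin : min k (s.2.2.2.2.2.length - 1) = k := by omega
    rw [hmin, ← hk0w, List.mem_append]
    rcases Nat.lt_or_ge k0 k with h3 | h3
    · left
      rw [List.mem_take_iff_getElem]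
      exact ⟨k0, by omega, rfl⟩
    · right
      rw [List.mem_drop_iff_getElem]
      exact ⟨k0 - (k + 1), by omega, by congr 1; omega⟩
  · -- transition
    have h1' : s.1 < js.length := not_le.1 h1
    have hmem := hi.2 h1'
    rw [h3, Nat.sub_zero, ← W_length N w C js s, List.take_length] at hmem
    refine ⟨hTr hDeg hE1 hE2 hB Q M N w js C m₀ s hN hQ hw hM h1' hs.a_le (by omega)
      (fun y hy => by rw [hs.c_len y hy, h3, Nat.sub_zero]) hmem hi.1, fun _ => ?_⟩
    simp [trans]
  · -- extension
    have h1' : s.1 < js.length := not_le.1 h1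
    have hmem := hi.2 h1'
    have hr := hs.rem
    refine ⟨hi.1, fun _ => ?_⟩
    have e0 : ctxOf N w C js (s.1, s.2.1, s.2.2.1, s.2.2.2.1, s.2.2.2.2.1 - 1,
        ext s.2.2.2.2.2) = ctxOf N w C js s := rfl
    rw [e0]
    simp only
    have hWl := W_length N w C js s
    rw [Clo.mem_ext]
    refine ⟨_, hmem, (W (ctxOf N w C js s))[N * w - s.2.2.2.2.1]'(by omega), ?_⟩
    rw [List.take_append_getElem]
    congr 1
    omega

/-- The initial state. -/
def initC (n N w : ℕ) : CSt := (0, List.replicate n 0, [], [], N * w, [[]])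

theorem init_shapeC {Q M N w n len : ℕ} (hM : 1 ≤ M) : ShC Q M N w n len (initC n N w) := by
  unfold initC
  refine ⟨Nat.zero_le _, by simp, ?_, by simp, by simp, by simp, by simp, le_rfl, ?_, by simp,
    by simp; omega⟩
  · intro y hy
    simp only at hy
    rw [List.eq_of_mem_replicate hy]
    exact Nat.zero_le _
  · intro u hu
    simp only [List.mem_singleton] at hu
    subst hu
    simp

theorem init_invC {N w n : ℕ} {C : List (List (Bool × ℕ))} {m₀ : ℕ}
    (h : m₀ = val C (List.range n) (List.replicate n 0)) :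
    InvC N w C (List.range n) m₀ (initC n N w) := by
  unfold initC
  refine ⟨?_, fun _ => by simp⟩
  unfold JJ
  rw [if_pos rfl, h]

/-- The output. -/
def outC (C : List (List (Bool × ℕ))) (n : ℕ) (d : ℕ → Bool) (s : CSt) : Bool :=
  if n = 0 then d (mat C s.2.1) else s.2.2.1.any fun t => decide (t.1 = mat C s.2.1) && d t.2

theorem out_iff {N w n : ℕ} {C : List (List (Bool × ℕ))} {m₀ : ℕ} {d : ℕ → Bool} {s : CSt}
    (hi : InvC N w C (List.range n) m₀ s) (ht : s.1 = (List.range n).length) :
    outC C n d s = true ↔ d m₀ = true := by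
  have hv : val C ((List.range n).drop s.1) s.2.1 = mat C s.2.1 := by
    rw [ht, List.drop_length]
    rfl
  rw [List.length_range] at ht
  obtain ⟨h1, -⟩ := hi
  unfold JJ at h1
  unfold outC
  split_ifs at h1 with h0
  · have hn : n = 0 := by omega
    rw [if_pos hn]
    rw [h0, List.drop_zero] at hv
    rw [← hv, h1]
  · have hn : n ≠ 0 := by omega
    rw [if_neg hn, List.any_eq_true]
    rw [hv] at h1
    obtain ⟨⟨h1, -⟩, h2⟩ := h1
    constructor
    · rintro ⟨⟨v, m⟩, hm, hb⟩
      simp only [Bool.and_eq_true, decide_eq_true_eq] at hb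
      rw [← h2 v m hm hb.1, hb.2]
    · intro hb
      exact ⟨_, h1, by simp [hb]⟩

end Pool.Agent.H334R5.Ct
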