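import Pool.Agent.H334R5.Ps.Stmts
import Pool.Agent.H578R2.Med.PP

/-!
# Counting and threshold patterns: definitions and task statements
-/

set_option autoImplicit false

namespace Pool.Agent.H334R5.Ct

open Pool.Agent.NPC
open Pool.Agent.NPC.Cnt (SharpP FP)
open Pool.Agent.NPC.Med (InPPc)
open Pool.Agent.H334R5.Clo (num ext)
open Pool.Agent.H334R5.Ps (upd extr pickz fix decv lc Mach)

/-- Hardness for `PP` under polynomial-time many-one reductions. -/
def PPHard (A : Set (List Bool)) : Prop := ∀ L, InPPc L → Reduces L A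

/-! ## Arithmetization with natural numbers -/

/-- The value of a literal: `x` or `(x - 1)²`. -/
def lt (b : Bool) (x : ℕ) : ℕ := if b = true then x else if x = 0 then 1 else (x - 1) * (x - 1)

/-- The value of a clause. -/
def cls (a : List ℕ) (c : List (Bool × ℕ)) : ℕ :=
  c.foldr (fun l v => lt l.1 (a.getD l.2 0) + lt (!l.1) (a.getD l.2 0) * v) 0

/-- The value of a formula in conjunctive normal form. -/
def mat (C : List (List (Bool × ℕ))) (a : List ℕ) : ℕ := C.foldr (fun c v => cls a c * v) 1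

/-- The sum over the values `0, 1` of some variables. -/
def val (C : List (List (Bool × ℕ))) : List ℕ → List ℕ → ℕ
  | [], a => mat C a
  | j :: js, a => val C js (upd a j 0) + val C js (upd a j 1)

/-- TASK Truth. -/
def TaskTruth : Prop := ∀ f : List Bool → ℕ, SharpP f →
  ∃ g : List Bool → List (List (Bool × ℕ)) × List Unit, Poly g ∧
    ∀ x, f x = val (g x).1 (List.range (g x).2.length) (List.replicate (g x).2.length 0)

/-- TASK Degree. -/
def TaskDegree : Prop := ∀ (C : List (List (Bool × ℕ))) (js a : List ℕ) (j : ℕ),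
  ∃ g : Polynomial ℤ, g.natDegree ≤ 2 * lc C ∧
    ∀ z : ℕ, ((val C js (upd a j z) : ℕ) : ℤ) = g.eval (z : ℤ)

/-- TASK Extr1. -/
def TaskExtr1 : Prop := ∀ (Q : ℕ) (v : List ℕ) (g : Polynomial ℤ), 1 ≤ Q →
  g.natDegree < v.length →
  (∀ i < v.length, ((v.getD i 0 : ℕ) : ZMod Q) = ((g.eval (i : ℤ) : ℤ) : ZMod Q)) →
  ∀ z : ℕ, ((extr Q v z : ℕ) : ZMod Q) = ((g.eval (z : ℤ) : ℤ) : ZMod Q)

/-- TASK Extr2. -/
def TaskExtr2 : Prop := ∀ (Q N M w : ℕ) (V : List (List ℕ)), 1 ≤ N →
  2 * (N * (2 ^ N * 2 ^ w * (M * M * N + 1) ^ N)) < Q → V.length ≤ M →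
  (∀ v ∈ V, v.length = N ∧ ∀ y ∈ v, y < 2 ^ w) →
  ∃ z ≤ M * M * N, ∀ v ∈ V, ∀ v' ∈ V, v ≠ v' → extr Q v z ≠ extr Q v' z

/-- TASK Bound. -/
def TaskBound : Prop := ∀ (C : List (List (Bool × ℕ))) (js a : List ℕ) (A : ℕ), 1 ≤ A →
  (∀ y ∈ a, y ≤ A) → val C js a ≤ 2 ^ js.length * (2 * A * A) ^ lc C

/-! ## The vector of values -/

/-- A context: the formula, the variables for the sum, the values of the variables, a variable,
the number of points, the width of numbers. -/
abbrev Ctx := List (List (Bool × ℕ)) × List ℕ × List ℕ × ℕ × List Unit × List Unit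

/-- The values at the points `0, 1, …, N - 1`. -/
def vec (c : Ctx) : List ℕ :=
  (List.range c.2.2.2.2.1.length).map fun z => val c.1 c.2.1 (upd c.2.2.1 c.2.2.2.1 z)

/-- The vector of values as a bit string. -/
def W (c : Ctx) : List Bool := (vec c).flatMap (fix c.2.2.2.2.2.length)

/-- The vector of values as a number. -/
def SW (c : Ctx) : ℕ :=
  ((List.range c.2.2.2.2.1.length).map fun z => val c.1 c.2.1 (upd c.2.2.1 c.2.2.2.1 z) *
    2 ^ (c.2.2.2.2.2.length * (c.2.2.2.2.1.length - 1 - z))).sum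

/-- The decision problem for the vector of values. -/
def LB (t : Ctx × List Bool) : Prop :=
  num t.2 * 2 ^ (t.1.2.2.2.2.1.length * t.1.2.2.2.2.2.length - t.2.length) ≤ SW t.1

/-- TASK LBval. -/
def TaskLBval : Prop := ∀ (c : Ctx) (u : List Bool),
  (∀ y ∈ vec c, y < 2 ^ c.2.2.2.2.2.length) →
  u.length ≤ c.2.2.2.2.1.length * c.2.2.2.2.2.length →
  (LB (c, u) ↔ num u ≤ num ((W c).take u.length))

/-- TASK Sharp. -/
def TaskSharp : Prop := ∃ f : List Bool → ℕ, SharpP f ∧
  Reduces (lang LB) (lang fun y : List Bool × ℕ => y.2 < f y.1)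

/-! ## The search -/

/-- A state: the number of processed variables, the values of the variables, the list of possible
pairs (value, final count), the list of possible final counts, and the state of the search for the
vector of values (the number of missing bits, the candidates). -/
abbrev CSt := ℕ × List ℕ × List (ℕ × ℕ) × List ℕ × ℕ × List (List Bool)

/-- The context of a state. -/
def ctxOf (N w : ℕ) (C : List (List (Bool × ℕ))) (js : List ℕ) (s : CSt) : Ctx :=
  (C, js.drop (s.1 + 1), s.2.1, js.getD s.1 0, List.replicate N (), List.replicate w ())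

/-- The queries. -/
def qryC (f : List Bool → List Bool) (N w : ℕ) (C : List (List (Bool × ℕ))) (js : List ℕ)
    (s : CSt) : List (List Bool) :=
  s.2.2.2.2.2.tail.map fun u => f (bits ((ctxOf N w C js s, u) : Ctx × List Bool))

/-- The transition to the next variable. -/
def trans (Q M N w : ℕ) (js : List ℕ) (s : CSt) : CSt :=
  (s.1 + 1,
    upd s.2.1 (js.getD s.1 0) (pickz Q M N (s.2.2.2.2.2.map (decv Q N w))),
    (if s.1 = 0 then (s.2.2.2.2.2.map (decv Q N w)).map (fun v =>
        (extr Q v (pickz Q M N (s.2.2.2.2.2.map (decv Q N w))), v.getD 0 0 + v.getD 1 0))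
      else (s.2.2.2.2.2.map (decv Q N w)).flatMap (fun v => s.2.2.2.1.flatMap (fun m =>
        if (v.getD 0 0 + v.getD 1 0, m) ∈ s.2.2.1 then
          [(extr Q v (pickz Q M N (s.2.2.2.2.2.map (decv Q N w))), m)] else []))),
    (if s.1 = 0 then (s.2.2.2.2.2.map (decv Q N w)).map (fun v => v.getD 0 0 + v.getD 1 0)
      else s.2.2.2.1),
    N * w, [[]])

/-- At the beginning the sum is `m₀`. Later the list of possible pairs contains the right pair, and
no pair with the right value and a wrong final count. -/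
def JJ (C : List (List (Bool × ℕ))) (js : List ℕ) (m₀ : ℕ) (s : CSt) : Prop :=
  if s.1 = 0 then val C js s.2.1 = m₀ else
    ((val C (js.drop s.1) s.2.1, m₀) ∈ s.2.2.1 ∧ m₀ ∈ s.2.2.2.1) ∧
      ∀ v m, (v, m) ∈ s.2.2.1 → v = val C (js.drop s.1) s.2.1 → m = m₀

/-- TASK Trans. -/
def TaskTrans : Prop := TaskDegree → TaskExtr1 → TaskExtr2 → TaskBound →
  ∀ (Q M N w : ℕ) (js : List ℕ) (C : List (List (Bool × ℕ))) (m₀ : ℕ) (s : CSt),
    N = 2 * lc C + 2 → 2 * (N * (2 ^ N * 2 ^ w * (M * M * N + 1) ^ N)) < Q →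
    2 ^ js.length * (2 * (M * M * N) * (M * M * N)) ^ lc C < 2 ^ w → 1 ≤ M →
    s.1 < js.length → (∀ y ∈ s.2.1, y ≤ M * M * N) → s.2.2.2.2.2.length ≤ M →
    (∀ y ∈ s.2.2.2.2.2, y.length = N * w) → W (ctxOf N w C js s) ∈ s.2.2.2.2.2 →
    JJ C js m₀ s → JJ C js m₀ (trans Q M N w js s)

/-- One step of the search with the answer `k`. -/
def stepC (Q M N w : ℕ) (js : List ℕ) (s : CSt) (k : ℕ) : CSt :=
  if js.length ≤ s.1 then s
  else if M < s.2.2.2.2.2.length then
    (s.1, s.2.1, s.2.2.1, s.2.2.2.1, s.2.2.2.2.1,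
      s.2.2.2.2.2.take (min k (s.2.2.2.2.2.length - 1)) ++
        s.2.2.2.2.2.drop (min k (s.2.2.2.2.2.length - 1) + 1))
  else if s.2.2.2.2.1 = 0 then trans Q M N w js s
  else (s.1, s.2.1, s.2.2.1, s.2.2.2.1, s.2.2.2.2.1 - 1, ext s.2.2.2.2.2)

/-- TASK PolyStep. -/
def TaskPolyStep : Prop := ∀ (α : Type) (_ : TEnc α) (Q M N w : α → ℕ) (js : α → List ℕ)
  (s : α → CSt) (k : α → ℕ), Poly Q → UPoly M → UPoly N → UPoly w → Poly js → Poly s → Poly k →
  (∀ x, 1 ≤ Q x) → Poly (fun x => stepC (Q x) (M x) (N x) (w x) (js x) (s x) (k x))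

/-- TASK PolyVal. -/
def TaskPolyVal : Prop := ∀ (α : Type) (_ : TEnc α) (C : α → List (List (Bool × ℕ)))
  (a : α → List ℕ), Poly C → Poly a → Poly (fun x => mat (C x) (a x))

/-! ## Functions and classes -/

/-- TASK FPbits. -/
def TaskFPbits : Prop := ∀ (f : List Bool → ℕ) (p : Polynomial ℕ),
  (∀ x, f x < 2 ^ p.eval x.length) →
  InP (lang fun y : List Bool × ℕ => (f y.1).testBit y.2 = true) → FP f

/-- TASK PPcomplete. -/
def TaskPPcomplete : Prop := (∃ A : Set (List Bool), InPPc A ∧ PPHard A) ∧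
  ((∀ f, SharpP f → FP f) → ∀ L : Set (List Bool), InPPc L → InP L)

/-- TASK MachC (assembly, done by the owner). -/
def TaskMachC : Prop := ∀ (A L : Set (List Bool)) (q : Polynomial ℕ) (f : List Bool → ℕ)
  (dec : List Bool → ℕ → Bool), PPHard A → SharpP f → Poly (fun p : List Bool × ℕ => dec p.1 p.2) →
  (∀ x, x ∈ L ↔ dec x (f x) = true) → Nonempty (Mach A L q)

end Pool.Agent.H334R5.Ct
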