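import Pool.Agent.H334R5.Ct.Stmts
import Pool.Agent.H334R5.Clo.PolyPart
import Pool.Agent.H671R2.PolyAuto

set_option autoImplicit false

/-!
# Task PPcomplete: a complete set for PP, and FP = #P implies PP = P
-/

namespace Pool.Agent.H334R5.Ct

open Pool.Agent.NPC
open Pool.Agent.NPC.Cnt
open Pool.Agent.NPC.Med (InPPc poly_bits poly_of_polyTime poly_two_pow uPoly_evalLen gt_inPP)

namespace PPc

/-- the occurrences of variables -/
def vl (φ : CNF ℕ) : List ℕ := φ.flatten.map Prod.snd

/-- the list `c` is the canonical list of the true variables of a satisfying assignment -/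
def chk (φ : CNF ℕ) (c : List ℕ) : Bool :=
  decide ((vl φ).filter (fun v => decide (v ∈ c)) = c) &&
    φ.all (fun cl => cl.any (fun l => decide (l.1 = decide (l.2 ∈ c))))

theorem poly_vl : Poly vl := by
  unfold vl
  fun_prop

theorem poly_chk : Poly (fun x : CNF ℕ × List ℕ => chk x.1 x.2) := by
  unfold chk vl
  fun_prop

theorem chk_iff {φ : CNF ℕ} {c : List ℕ} : chk φ c = true ↔
    (vl φ).filter (fun v => decide (v ∈ c)) = c ∧ SatBy c.toFinset φ := by
  unfold chk SatBy
  rw [Bool.and_eq_true, decide_eq_true_iff, List.all_eq_true]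
  refine and_congr_right fun _ => forall₂_congr fun cl _ => ?_
  rw [List.any_eq_true]
  refine exists_congr fun l => and_congr_right fun _ => ?_
  rw [decide_eq_true_iff]
  simp only [List.mem_toFinset]

theorem card_chk (φ : CNF ℕ) : Nat.card {c : List ℕ // chk φ c = true} = satCount φ := by
  have h1 : satCount φ = Nat.card {S // S ∈ (vars φ).powerset.filter (fun S => SatBy S φ)} := by
    rw [Nat.card_eq_fintype_card, Fintype.card_coe]
    rfl
  rw [h1]
  refine Nat.card_congr (Equiv.ofBijective (fun c => ⟨c.1.toFinset, ?_⟩) ⟨?_, ?_⟩)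
  · obtain ⟨h2, h3⟩ := chk_iff.1 c.2
    rw [Finset.mem_filter, Finset.mem_powerset]
    refine ⟨fun v hv => ?_, h3⟩
    rw [List.mem_toFinset, ← h2, List.mem_filter] at hv
    exact List.mem_toFinset.2 hv.1
  · rintro ⟨c, hc⟩ ⟨c', hc'⟩ h
    simp only [Subtype.mk.injEq] at h
    obtain ⟨h2, -⟩ := chk_iff.1 hc
    obtain ⟨h2', -⟩ := chk_iff.1 hc'
    apply Subtype.ext
    show c = c'
    rw [← h2, ← h2']
    refine List.filter_congr (fun v _ => ?_)
    have : v ∈ c ↔ v ∈ c' := by
      rw [← List.mem_toFinset, h, List.mem_toFinset]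
    exact decide_eq_decide.2 this
  · rintro ⟨S, hS⟩
    rw [Finset.mem_filter, Finset.mem_powerset] at hS
    have hv : ∀ v, v ∈ (vl φ).filter (fun v => decide (v ∈ S)) ↔ v ∈ S := by
      intro v
      rw [List.mem_filter, decide_eq_true_iff]
      exact and_iff_right_of_imp fun h => List.mem_toFinset.1 (hS.1 h)
    have hS' : ((vl φ).filter (fun v => decide (v ∈ S))).toFinset = S := by
      ext v
      rw [List.mem_toFinset, hv]
    refine ⟨⟨(vl φ).filter (fun v => decide (v ∈ S)), chk_iff.2 ⟨?_, ?_⟩⟩, Subtype.ext hS'⟩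
    · refine List.filter_congr (fun v _ => ?_)
      exact decide_eq_decide.2 (hv v)
    · rw [hS']
      exact hS.2

theorem sharpP_sat : SharpP (strFn (fun φ : CNF ℕ => satCount φ)) := by
  obtain ⟨q, hq⟩ := poly_vl.sz_le
  have h := sharpP_typed chk poly_chk q (fun φ c hc => by
    obtain ⟨h1, -⟩ := chk_iff.1 hc
    refine le_trans ?_ (hq φ)
    conv_lhs => rw [← h1]
    exact Pool.Agent.H334R5.Clo.sz_sublist List.filter_sublist)
  have e : (fun φ : CNF ℕ => Nat.card {c : List ℕ // chk φ c = true}) = fun φ => satCount φ := by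
    funext φ
    exact card_chk φ
  rwa [e] at h

end PPc

open PPc

theorem taskPPcomplete : TaskPPcomplete := by
  refine ⟨⟨_, gt_inPP sharpP_sat, ?_⟩, ?_⟩
  · rintro L ⟨V, p, hV, hL⟩
    obtain ⟨G, hG, hGf⟩ := parsimonious hV p
    have hG' : Poly G := PC.comp hG pc_raw
    refine ⟨fun x => bits ((bits (G x), 2 ^ p.eval x.length / 2) : List Bool × ℕ),
      polyTime_bits ?_, fun x => ?_⟩
    · have h1 : Poly (fun x : List Bool => bits (G x)) := poly_bits.comp hG'
      have h2 : Poly (fun x : List Bool => 2 ^ p.eval x.length) :=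
        poly_two_pow (uPoly_evalLen (x := fun x : List Bool => x) Poly.id p)
      exact NPC.Poly.pair h1 (NPC.Poly.div h2 (NPC.Poly.const 2))
    · rw [bits_mem_lang, hL x]
      simp only [strFn_bits]
      rw [hGf x]
      omega
  · rintro hFP L ⟨V, p, hV, hL⟩
    have h1 := hFP (fun x => Nat.card {w : List Bool // w.length = p.eval x.length ∧
      V (pairBits x w) = [true]}) ⟨V, p, hV, fun x => rfl⟩
    have h2 : Poly (fun x : List Bool => Nat.card {w : List Bool // w.length = p.eval x.length ∧
      V (pairBits x w) = [true]}) := Poly.of_natBits (poly_of_polyTime h1)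
    have h3 : Poly (fun x : List Bool => 2 ^ p.eval x.length) :=
      poly_two_pow (uPoly_evalLen (x := fun x : List Bool => x) Poly.id p)
    have h4 : Poly (fun x : List Bool => decide (2 ^ p.eval x.length <
        2 * Nat.card {w : List Bool // w.length = p.eval x.length ∧
          V (pairBits x w) = [true]})) := NPC.Poly.decide_lt h3 (NPC.Poly.mul (NPC.Poly.const 2) h2)
    refine ⟨_, Pool.Agent.NPC.polyTime_of_poly h4, fun x => ?_⟩
    rw [hL x]
    simp

end Pool.Agent.H334R5.Ct
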